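import Pool.Agent.Lib.P4a177q.DtQ

/-!
# MODULE P4a177q.CntQ: the number of the `ξ_B` for an arrangement of lines

The number of the `ξ_B` is the number of the nodes (pairs of lines which are not parallel) plus `1` minus the number of the lines.

PROOF. Lines are parallel if `dt A i j = 0` (`dt_lam`, `dt_equiv`, `Arr.spans`). Let `D ≥ 1` (from `A.spans`), `0` the first line and `e` the smallest index with `dt A e 0 ≠ 0`.
For an ordered pair `B = (i, j)`, `i < j`, with `lam B ≠ 0`: `B` is in `A.Idx` if and only if there is `k < i` which is not parallel to `j` and `k < j` which is not parallel to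
`i` (`Function.update` of `![i, j]`, in the second case with the line `k` at the place `1`; `lam` is `dt` up to the order). The pairs which are NOT in `A.Idx` are: `(0, j)` with `j` not parallel to `0`, and the
pairs `{i, e}` (in increasing order) with `i ≠ 0` parallel to `0`: indeed for `j` not parallel to `0` the smallest line not parallel to `j` is `0`, for `j` parallel to `0` it is `e`. They
are in bijection with the `D - 1` lines `k ≠ 0`: `k ↦ (0, k)` if `k` is not parallel to `0`, `k ↦ (min k e, max k e)` otherwise. (Suggestion: `Nat.card` of the subtype as the card of a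
`Finset`, split by `Finset.filter_card_add_filter_neg_card_eq_card`, and `Finset.card_bij` for the complement.)
-/

set_option autoImplicit false

namespace P4a177q

open P4a177h P4a177s P4a177x Function

namespace CntQAux

/-- Pairs instead of order embeddings. -/
theorem card_pairs {D : ℕ} (P : (Fin 2 ↪o Fin D) → Prop) (Q : Fin D → Fin D → Prop)
    [DecidablePred fun p : Fin D × Fin D => p.1 < p.2 ∧ Q p.1 p.2]
    (hPQ : ∀ B, P B ↔ Q (B 0) (B 1)) :
    Nat.card {B : Fin 2 ↪o Fin D // P B} =
      (Finset.univ.filter fun p : Fin D × Fin D => p.1 < p.2 ∧ Q p.1 p.2).card := by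
  rw [← Fintype.card_subtype, ← Nat.card_eq_fintype_card]
  let f : {B : Fin 2 ↪o Fin D // P B} → {p : Fin D × Fin D // p.1 < p.2 ∧ Q p.1 p.2} :=
    fun B => ⟨(B.1 0, B.1 1), B.1.strictMono (by decide), (hPQ B.1).1 B.2⟩
  refine Nat.card_eq_of_bijective f ⟨fun B B' h => ?_, fun p => ?_⟩
  · have h1 : (B.1 0, B.1 1) = (B'.1 0, B'.1 1) := congrArg Subtype.val h
    rw [Prod.mk.injEq] at h1
    apply Subtype.ext
    apply DFunLike.ext
    intro i
    fin_cases i
    · exact h1.1
    · exact h1.2
  · obtain ⟨⟨i, j⟩, hij, hQ⟩ := p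
    have hm : StrictMono ![i, j] := by
      intro s t hst
      fin_cases s <;> fin_cases t
      · exact absurd hst (lt_irrefl _)
      · exact hij
      · exact absurd hst (by decide)
      · exact absurd hst (lt_irrefl _)
    refine ⟨⟨OrderEmbedding.ofStrictMono ![i, j] hm, (hPQ _).2 hQ⟩, ?_⟩
    apply Subtype.ext
    rfl

theorem lam_eq {D : ℕ} (A : Arr 2 D) (p : Fin 2 → Fin D) : A.lam p = dt A (p 0) (p 1) := by
  unfold dt Arr.lam
  rw [Matrix.det_fin_two]
  simp

/-- The pairs which are not in the index set. -/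
theorem not_idx {D : ℕ} (A : Arr 2 (D + 1)) (e : Fin (D + 1)) (he : dt A e 0 ≠ 0)
    (hmin : ∀ l, l < e → dt A l 0 = 0) (i j : Fin (D + 1)) (hij : i < j) (hd : dt A i j ≠ 0) :
    ¬ ((∃ k < i, dt A k j ≠ 0) ∧ (∃ k < j, dt A i k ≠ 0)) ↔
      (i = 0 ∨ (dt A i 0 = 0 ∧ j = e) ∨ (dt A j 0 = 0 ∧ i = e)) := by
  have hj0 : (0 : Fin (D + 1)) < j := lt_of_le_of_lt (Fin.zero_le _) hij
  have hsym : ∀ {s t : Fin (D + 1)}, dt A s t = 0 → dt A t s = 0 := by
    intro s t h
    rw [dt_symm, h, neg_zero]
  constructor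
  · intro h
    by_cases hi : i = 0
    · exact Or.inl hi
    right
    have hi0 : (0 : Fin (D + 1)) < i := Fin.pos_iff_ne_zero.2 hi
    by_cases h1 : ∃ k < i, dt A k j ≠ 0
    · left
      have h2 : ∀ k < j, dt A i k = 0 := by
        intro k hk
        by_contra hne
        exact h ⟨h1, k, hk, hne⟩
      have hi1 : dt A i 0 = 0 := h2 0 hj0
      refine ⟨hi1, ?_⟩
      apply le_antisymm
      · by_contra hlt
        rw [not_le] at hlt
        exact he (dt_trans A (hsym (h2 e hlt)) hi1)
      · by_contra hlt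
        rw [not_le] at hlt
        exact hd (dt_trans A hi1 (hsym (hmin j hlt)))
    · right
      push Not at h1
      have hj1 : dt A j 0 = 0 := hsym (h1 0 hi0)
      refine ⟨hj1, ?_⟩
      apply le_antisymm
      · by_contra hlt
        rw [not_le] at hlt
        exact he (dt_trans A (h1 e hlt) hj1)
      · by_contra hlt
        rw [not_le] at hlt
        exact hd (dt_trans A (hmin i hlt) (hsym hj1))
  · rintro (h | ⟨h1, h2⟩ | ⟨h1, h2⟩) ⟨⟨k, hk, hk'⟩, ⟨l, hl, hl'⟩⟩
    · rw [h] at hk
      exact absurd hk (by simp)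
    · rw [h2] at hl
      exact hl' (dt_trans A h1 (hsym (hmin l hl)))
    · rw [h2] at hk
      exact hk' (dt_trans A (hmin k hk) (hsym h1))

end CntQAux

open CntQAux

theorem card_idx2 {D : ℕ} (A : Arr 2 D) :
    Nat.card A.Idx + D = Nat.card {B : Fin 2 ↪o Fin D // A.lam B ≠ 0} + 1 := by
  classical
  rcases D with _ | D
  · obtain ⟨p, _⟩ := A.spans
    exact (p 0).elim0
  have hsym : ∀ {s t : Fin (D + 1)}, dt A s t = 0 → dt A t s = 0 := by
    intro s t h
    rw [dt_symm, h, neg_zero]
  -- the smallest line which is not parallel to the line `0`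
  obtain ⟨e, he, hmin⟩ : ∃ e, dt A e 0 ≠ 0 ∧ ∀ l, l < e → dt A l 0 = 0 := by
    have h1 := deg_pos A 0
    unfold deg at h1
    have hne : (Finset.univ.filter fun i => dt A i 0 ≠ 0).Nonempty := Finset.card_pos.1 h1
    refine ⟨(Finset.univ.filter fun i => dt A i 0 ≠ 0).min' hne,
      (Finset.mem_filter.1 (Finset.min'_mem _ hne)).2, fun l hl => ?_⟩
    by_contra h
    exact absurd (Finset.min'_le _ l (Finset.mem_filter.2 ⟨Finset.mem_univ l, h⟩)) (not_le.2 hl)
  have he0 : e ≠ 0 := by
    rintro rfl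
    exact he (dt_self A 0)
  have h1 : Nat.card A.Idx = (Finset.univ.filter fun p : Fin (D + 1) × Fin (D + 1) =>
      p.1 < p.2 ∧ (dt A p.1 p.2 ≠ 0 ∧ ((∃ k < p.1, dt A k p.2 ≠ 0) ∧
        (∃ k < p.2, dt A p.1 k ≠ 0)))).card := by
    unfold Arr.Idx
    refine card_pairs (fun B : Fin 2 ↪o Fin (D + 1) => A.lam B ≠ 0 ∧
      ∀ i, ∃ k < B i, A.lam (Function.update B i k) ≠ 0)
      (fun i j => dt A i j ≠ 0 ∧ ((∃ k < i, dt A k j ≠ 0) ∧ (∃ k < j, dt A i k ≠ 0))) ?_
    intro B
    rw [Fin.forall_fin_two, lam_eq]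
    have e0 : ∀ k, A.lam (Function.update (B : Fin 2 → Fin (D + 1)) 0 k) = dt A k (B 1) := by
      intro k
      rw [lam_eq, Function.update_self, Function.update_of_ne (by decide)]
    have e1 : ∀ k, A.lam (Function.update (B : Fin 2 → Fin (D + 1)) 1 k) = dt A (B 0) k := by
      intro k
      rw [lam_eq, Function.update_self, Function.update_of_ne (by decide)]
    simp only [e0, e1]
  have h2 : Nat.card {B : Fin 2 ↪o Fin (D + 1) // A.lam B ≠ 0} =
      (Finset.univ.filter fun p : Fin (D + 1) × Fin (D + 1) =>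
        p.1 < p.2 ∧ dt A p.1 p.2 ≠ 0).card := by
    refine card_pairs (fun B : Fin 2 ↪o Fin (D + 1) => A.lam B ≠ 0) (fun i j => dt A i j ≠ 0) ?_
    intro B
    rw [lam_eq]
  rw [h1, h2]
  -- the complement
  set S := Finset.univ.filter fun p : Fin (D + 1) × Fin (D + 1) =>
    p.1 < p.2 ∧ dt A p.1 p.2 ≠ 0 with hS
  have h3 : (Finset.univ.filter fun p : Fin (D + 1) × Fin (D + 1) =>
      p.1 < p.2 ∧ (dt A p.1 p.2 ≠ 0 ∧ ((∃ k < p.1, dt A k p.2 ≠ 0) ∧
        (∃ k < p.2, dt A p.1 k ≠ 0)))) = S.filter fun p =>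
      (∃ k < p.1, dt A k p.2 ≠ 0) ∧ (∃ k < p.2, dt A p.1 k ≠ 0) := by
    ext p
    simp only [hS, Finset.mem_filter, Finset.mem_univ, true_and, and_assoc]
  rw [h3]
  have h4 := Finset.card_filter_add_card_filter_not (s := S) (fun p : Fin (D + 1) × Fin (D + 1) =>
    (∃ k < p.1, dt A k p.2 ≠ 0) ∧ (∃ k < p.2, dt A p.1 k ≠ 0))
  have h5 : (S.filter fun p => ¬ ((∃ k < p.1, dt A k p.2 ≠ 0) ∧
      (∃ k < p.2, dt A p.1 k ≠ 0))).card = D := by
    have h6 : (Finset.univ.erase (0 : Fin (D + 1))).card = D := by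
      rw [Finset.card_erase_of_mem (Finset.mem_univ _), Finset.card_univ, Fintype.card_fin]
      rfl
    refine Eq.trans (Eq.symm ?_) h6
    refine Finset.card_bij (fun k _ => if dt A k 0 = 0 then (min k e, max k e) else (0, k)) ?_ ?_ ?_
    · intro k hk
      have hk0 : k ≠ 0 := (Finset.mem_erase.1 hk).1
      have hkp : (0 : Fin (D + 1)) < k := Fin.pos_iff_ne_zero.2 hk0
      by_cases hd : dt A k 0 = 0
      · simp only [if_pos hd]
        have hke : dt A k e ≠ 0 := fun h => he (dt_trans A (hsym h) hd)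
        have hne : k ≠ e := by
          rintro rfl
          exact he hd
        rcases lt_or_gt_of_ne hne with hlt | hgt
        · rw [min_eq_left hlt.le, max_eq_right hlt.le, Finset.mem_filter, hS, Finset.mem_filter]
          refine ⟨⟨Finset.mem_univ _, hlt, hke⟩, ?_⟩
          exact (not_idx A e he hmin k e hlt hke).2 (Or.inr (Or.inl ⟨hd, rfl⟩))
        · rw [min_eq_right hgt.le, max_eq_left hgt.le, Finset.mem_filter, hS, Finset.mem_filter]
          have hek : dt A e k ≠ 0 := fun h => hke (hsym h)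
          refine ⟨⟨Finset.mem_univ _, hgt, hek⟩, ?_⟩
          exact (not_idx A e he hmin e k hgt hek).2 (Or.inr (Or.inr ⟨hd, rfl⟩))
      · simp only [if_neg hd]
        rw [Finset.mem_filter, hS, Finset.mem_filter]
        have hd' : dt A 0 k ≠ 0 := fun h => hd (hsym h)
        refine ⟨⟨Finset.mem_univ _, hkp, hd'⟩, ?_⟩
        exact (not_idx A e he hmin 0 k hkp hd').2 (Or.inl rfl)
    · intro k hk l hl hkl
      have hk0 : k ≠ 0 := (Finset.mem_erase.1 hk).1
      have hl0 : l ≠ 0 := (Finset.mem_erase.1 hl).1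
      have hmin0 : ∀ m : Fin (D + 1), m ≠ 0 → min m e ≠ 0 := by
        intro m hm h
        rcases min_choice m e with h' | h'
        · rw [h'] at h
          exact hm h
        · rw [h'] at h
          exact he0 h
      by_cases h1 : dt A k 0 = 0 <;> by_cases h2 : dt A l 0 = 0
      · simp only [if_pos h1, if_pos h2, Prod.mk.injEq] at hkl
        obtain ⟨ha, hb⟩ := hkl
        have hke : k ≠ e := by
          rintro rfl
          exact he h1
        have hle : l ≠ e := by
          rintro rfl
          exact he h2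
        rcases lt_or_gt_of_ne hke with hlt | hgt <;> rcases lt_or_gt_of_ne hle with hlt' | hgt'
        · rwa [min_eq_left hlt.le, min_eq_left hlt'.le] at ha
        · rw [min_eq_left hlt.le, min_eq_right hgt'.le] at ha
          exact absurd ha hke
        · rw [min_eq_right hgt.le, min_eq_left hlt'.le] at ha
          exact absurd ha.symm hle
        · rwa [max_eq_left hgt.le, max_eq_left hgt'.le] at hb
      · simp only [if_pos h1, if_neg h2, Prod.mk.injEq] at hkl
        exact absurd hkl.1 (hmin0 k hk0)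
      · simp only [if_neg h1, if_pos h2, Prod.mk.injEq] at hkl
        exact absurd hkl.1.symm (hmin0 l hl0)
      · simp only [if_neg h1, if_neg h2, Prod.mk.injEq] at hkl
        exact hkl.2
    · rintro ⟨i, j⟩ hp
      rw [Finset.mem_filter, hS, Finset.mem_filter] at hp
      obtain ⟨⟨_, hij, hd⟩, hn⟩ := hp
      have hj0 : j ≠ 0 := by
        rintro rfl
        exact absurd hij (by simp)
      rcases (not_idx A e he hmin i j hij hd).1 hn with h | ⟨h1, h2⟩ | ⟨h1, h2⟩
      · have h : i = 0 := h
        subst h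
        refine ⟨j, Finset.mem_erase.2 ⟨hj0, Finset.mem_univ _⟩, ?_⟩
        rw [if_neg fun h => hd (hsym h)]
      · by_cases hi : i = 0
        · subst hi
          refine ⟨j, Finset.mem_erase.2 ⟨hj0, Finset.mem_univ _⟩, ?_⟩
          rw [if_neg fun h => hd (hsym h)]
        · have h2 : j = e := h2
          subst h2
          refine ⟨i, Finset.mem_erase.2 ⟨hi, Finset.mem_univ _⟩, ?_⟩
          rw [if_pos h1, min_eq_left (le_of_lt hij), max_eq_right (le_of_lt hij)]
      · have h2 : i = e := h2
        subst h2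
        refine ⟨j, Finset.mem_erase.2 ⟨hj0, Finset.mem_univ _⟩, ?_⟩
        rw [if_pos h1, min_eq_right (le_of_lt hij), max_eq_left (le_of_lt hij)]
  omega

end P4a177q
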