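import Pool.Agent.Lib.P4a177x.MainX

/-!
# The symbol part of `K_2` of the curves `N * l_1 * … * l_D = 1` for all arrangements of lines without
triple points: definitions
-/

set_option autoImplicit false

namespace P4a177q

open P4a177h P4a177s P4a177x Function MvPolynomial

noncomputable section

variable {D : ℕ}

/-- The determinant of the normals of two lines. -/
def dt (A : Arr 2 D) (i j : Fin D) : ℤ := A.a i 0 * A.a j 1 - A.a i 1 * A.a j 0

/-- The number of the lines which are not parallel to the line `k`. -/
def deg (A : Arr 2 D) (k : Fin D) : ℕ := (Finset.univ.filter fun i => dt A i k ≠ 0).card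

/-- A place of the curve at infinity, on the line `k`: the expansion of the functions in the local
parameter `z = 1 / ℓ`, where `ℓ = x_0 + q x_1` is not parallel to any of the lines. -/
structure Pl (A : Arr 2 (D + 1)) (N : ℕ) (q : ℤ) (k : Fin (D + 1)) where
  /-- the expansion of the functions -/
  φ : A.CoordRing N →+* LaurentSeries ℚ
  /-- the power series of the units -/
  U : Fin (D + 1) → PowerSeries ℚ
  /-- their constant coefficients -/
  u : Fin (D + 1) → ℚˣ
  hu : ∀ i, PowerSeries.constantCoeff (U i) = u i
  hk : φ (lu A N k) = HahnSeries.single (deg A k : ℤ) 1 * (U k : LaurentSeries ℚ)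
  hi : ∀ i, dt A i k ≠ 0 →
    φ (lu A N i) = HahnSeries.single (-1 : ℤ) 1 * (U i : LaurentSeries ℚ)
  hp : ∀ i, i ≠ k → dt A i k = 0 → φ (lu A N i) = (U i : LaurentSeries ℚ)
  hl : φ (A.coord N 0 + (q : A.CoordRing N) * A.coord N 1) = HahnSeries.single (-1 : ℤ) 1

/-- The order of a unit at a place, with the opposite sign. -/
def po {A : Arr 2 (D + 1)} {N : ℕ} {q : ℤ} {k : Fin (D + 1)} (P : Pl A N q k)
    (w : (A.CoordRing N)ˣ) : ℤ := Multiplicative.toAdd (UniXAux.lg P.φ w)

end

end P4a177q
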