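import Pool.Agent.Lib.P4a177q.Defs

/-!
# MODULE P4a177q.DtQ: parallel lines

PROOFS. `dt_lam`: `Matrix.det_fin_two`. `dt_trans`: the normals are not `0` (`A.ne_zero`). `beta_ne`: if the two parallel
lines had `beta_j c_i = beta_i c_j` (`beta = a 1 - q a 0`, `beta_j ≠ 0`; then `beta_i ≠ 0` as well, the normals are proportional)
they would be equal: a complex point of the line `j` (it exists, the normal is not `0`) lies on both, and the normals `i ≠ j` are
linearly dependent, against `A.simple` (see `Arr.mem_range_of_form_eq_zero` in `Lib/P4a177s/Defs.lean`). `exists_q`: all but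
finitely many integers (`Set.Infinite`, or: `q` larger than all `|a k 1|`, if `a k 0 ≠ 0` then `|q a k 0| > |a k 1|`, otherwise
`a k 1 ≠ 0`). `deg_pos`: `A.spans` gives `i, j` with `dt A i j ≠ 0`; both parallel to `k` is impossible by `dt_trans`.
`deg_le`: `k` itself is parallel to `k`.
-/

set_option autoImplicit false

namespace P4a177q

open P4a177h P4a177s P4a177x Function

variable {D : ℕ}

theorem dt_lam (A : Arr 2 D) (i j : Fin D) : dt A i j = A.lam ![i, j] := by
  unfold dt Arr.lam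
  rw [Matrix.det_fin_two]
  simp

theorem dt_self (A : Arr 2 D) (i : Fin D) : dt A i i = 0 := by
  unfold dt
  ring

theorem dt_symm (A : Arr 2 D) (i j : Fin D) : dt A j i = -dt A i j := by
  unfold dt
  ring

theorem DtQAux.ne_zero_or (A : Arr 2 D) (j : Fin D) : A.a j 0 ≠ 0 ∨ A.a j 1 ≠ 0 := by
  by_contra h
  push Not at h
  apply A.ne_zero j
  funext l
  fin_cases l
  · exact h.1
  · exact h.2

theorem dt_trans (A : Arr 2 D) {i j k : Fin D} (h1 : dt A i j = 0) (h2 : dt A j k = 0) :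
    dt A i k = 0 := by
  unfold dt at *
  rcases DtQAux.ne_zero_or A j with hj | hj
  · have h : A.a j 0 * (A.a i 0 * A.a k 1 - A.a i 1 * A.a k 0) = 0 := by
      linear_combination A.a i 0 * h2 + A.a k 0 * h1
    exact (mul_eq_zero.1 h).resolve_left hj
  · have h : A.a j 1 * (A.a i 0 * A.a k 1 - A.a i 1 * A.a k 0) = 0 := by
      linear_combination A.a k 1 * h1 + A.a i 1 * h2
    exact (mul_eq_zero.1 h).resolve_left hj

theorem dt_equiv (A : Arr 2 D) : Equivalence fun i k => dt A i k = 0 where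
  refl i := dt_self A i
  symm {i j} h := by
    show dt A j i = 0
    rw [dt_symm, h, neg_zero]
  trans h1 h2 := dt_trans A h1 h2

theorem DtQAux.exists_zero (A : Arr 2 D) (j : Fin D) :
    ∃ x : Fin 2 → ℂ, ∑ l, (A.a j l : ℂ) * x l + (A.c j : ℂ) = 0 := by
  rcases DtQAux.ne_zero_or A j with hj | hj
  · have hj' : (A.a j 0 : ℂ) ≠ 0 := by exact_mod_cast hj
    refine ⟨![-(A.c j : ℂ) / (A.a j 0 : ℂ), 0], ?_⟩
    rw [Fin.sum_univ_two]
    simp only [Matrix.cons_val_zero, Matrix.cons_val_one, mul_zero, add_zero]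
    field_simp
    ring
  · have hj' : (A.a j 1 : ℂ) ≠ 0 := by exact_mod_cast hj
    refine ⟨![0, -(A.c j : ℂ) / (A.a j 1 : ℂ)], ?_⟩
    rw [Fin.sum_univ_two]
    simp only [Matrix.cons_val_zero, Matrix.cons_val_one, mul_zero, zero_add]
    field_simp
    ring

theorem beta_ne (A : Arr 2 D) {i j : Fin D} (hij : i ≠ j) (h : dt A i j = 0) {q : ℤ}
    (hq : A.a j 1 - q * A.a j 0 ≠ 0) :
    (A.a j 1 - q * A.a j 0) * A.c i - (A.a i 1 - q * A.a i 0) * A.c j ≠ 0 := by
  intro h0
  unfold dt at h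
  obtain ⟨x, hx⟩ := DtQAux.exists_zero A j
  have e0 : (A.a j 1 - q * A.a j 0) * A.a i 0 = (A.a i 1 - q * A.a i 0) * A.a j 0 := by
    linear_combination h
  have e1 : (A.a j 1 - q * A.a j 0) * A.a i 1 = (A.a i 1 - q * A.a i 0) * A.a j 1 := by
    linear_combination q * h
  have E0 : ((A.a j 1 : ℂ) - q * A.a j 0) * A.a i 0 = ((A.a i 1 : ℂ) - q * A.a i 0) * A.a j 0 := by
    exact_mod_cast e0
  have E1 : ((A.a j 1 : ℂ) - q * A.a j 0) * A.a i 1 = ((A.a i 1 : ℂ) - q * A.a i 0) * A.a j 1 := by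
    exact_mod_cast e1
  have H0 : ((A.a j 1 : ℂ) - q * A.a j 0) * A.c i - ((A.a i 1 : ℂ) - q * A.a i 0) * A.c j = 0 := by
    exact_mod_cast h0
  have Q : (A.a j 1 : ℂ) - q * A.a j 0 ≠ 0 := by exact_mod_cast hq
  have hxi : ∑ l, (A.a i l : ℂ) * x l + (A.c i : ℂ) = 0 := by
    rw [Fin.sum_univ_two] at hx ⊢
    have : ((A.a j 1 : ℂ) - q * A.a j 0) *
        ((A.a i 0 : ℂ) * x 0 + (A.a i 1 : ℂ) * x 1 + (A.c i : ℂ)) = 0 := by
      linear_combination ((A.a i 1 : ℂ) - q * A.a i 0) * hx + x 0 * E0 + x 1 * E1 + H0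
    exact (mul_eq_zero.1 this).resolve_left Q
  have hs := A.simple x
  let e : Fin 2 → {k : Fin D // ∑ l, (A.a k l : ℂ) * x l + (A.c k : ℂ) = 0} :=
    ![⟨i, hxi⟩, ⟨j, hx⟩]
  have he : Function.Injective e := by
    intro s t hst
    fin_cases s <;> fin_cases t
    · rfl
    · exact absurd (congrArg Subtype.val hst) hij
    · exact absurd (congrArg Subtype.val hst).symm hij
    · rfl
  have hl := Fintype.linearIndependent_iff.1 (hs.comp e he)
    ![((A.a j 1 : ℂ) - q * A.a j 0), -((A.a i 1 : ℂ) - q * A.a i 0)] (by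
      rw [Fin.sum_univ_two]
      funext l
      fin_cases l
      · show ((A.a j 1 : ℂ) - q * A.a j 0) * (A.a i 0 : ℂ) +
          -((A.a i 1 : ℂ) - q * A.a i 0) * (A.a j 0 : ℂ) = 0
        linear_combination E0
      · show ((A.a j 1 : ℂ) - q * A.a j 0) * (A.a i 1 : ℂ) +
          -((A.a i 1 : ℂ) - q * A.a i 0) * (A.a j 1 : ℂ) = 0
        linear_combination E1) 0
  exact Q hl

theorem exists_q (A : Arr 2 D) : ∃ q : ℤ, ∀ k, A.a k 1 - q * A.a k 0 ≠ 0 := by
  refine ⟨1 + ∑ k, |A.a k 1|, fun k hk => ?_⟩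
  have h1 : |A.a k 1| ≤ ∑ k, |A.a k 1| :=
    Finset.single_le_sum (f := fun k => |A.a k 1|) (fun k _ => abs_nonneg _) (Finset.mem_univ k)
  set s := ∑ k, |A.a k 1| with hs
  have h2 : A.a k 1 = (1 + s) * A.a k 0 := by linarith
  by_cases h0 : A.a k 0 = 0
  · rw [h0, mul_zero] at h2
    rcases DtQAux.ne_zero_or A k with h | h
    · exact h h0
    · exact h h2
  · have h3 : (1 : ℤ) ≤ |A.a k 0| := Int.one_le_abs h0
    have h4 : 0 ≤ s := le_trans (abs_nonneg _) h1
    have h5 : |A.a k 1| = (1 + s) * |A.a k 0| := by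
      rw [h2, abs_mul, abs_of_nonneg (by linarith : (0 : ℤ) ≤ 1 + s)]
    nlinarith

theorem deg_pos (A : Arr 2 D) (k : Fin D) : 1 ≤ deg A k := by
  obtain ⟨p, hp⟩ := A.spans
  by_contra h
  have h0 : deg A k = 0 := by omega
  unfold deg at h0
  rw [Finset.card_eq_zero, Finset.filter_eq_empty_iff] at h0
  have h1 : ∀ i, dt A i k = 0 := fun i => by
    have := h0 (Finset.mem_univ i)
    exact not_not.1 this
  apply hp
  rw [Matrix.det_fin_two]
  have h2 : dt A k (p 1) = 0 := by rw [dt_symm, h1, neg_zero]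
  have h3 := dt_trans A (h1 (p 0)) h2
  unfold dt at h3
  simpa using h3

theorem deg_le (A : Arr 2 (D + 1)) (k : Fin (D + 1)) : deg A k ≤ D := by
  unfold deg
  have h : (Finset.univ.filter fun i => dt A i k ≠ 0) ⊆ Finset.univ.erase k := by
    intro i hi
    rw [Finset.mem_filter] at hi
    rw [Finset.mem_erase]
    refine ⟨fun hik => hi.2 ?_, Finset.mem_univ i⟩
    rw [hik]
    exact dt_self A k
  have h2 := Finset.card_le_card h
  rw [Finset.card_erase_of_mem (Finset.mem_univ k), Finset.card_univ, Fintype.card_fin] at h2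
  omega

end P4a177q
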