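import Pool.Agent.Lib.P4a177q.MainQ
import Pool.Agent.Lib.P4a177q.CntQ

/-!
# The final statement on the arrangements, with all the arrangements of lines
-/

set_option autoImplicit false

namespace P4a177q

open P4a177h P4a177s P4a177x Function
open scoped Real

/-- In general position, with the factor `(D !) ^ (2 n)`. -/
theorem spannedBy_gp {m D : ℕ} (A : Arr (m + 2) D)
    (hA : ∀ p : Fin (m + 2) → Fin D, Injective p → A.lam p ≠ 0) {N : ℕ} (hN : 1 ≤ N)
    {η : MilnorK (m + 2) (A.CoordRing N)} (hη : P4a177w.UnramifiedOverQ η) :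
    P4a177u.SpannedBy (A.xi N) ((D.factorial ^ 2) ^ (m + 2)) η := by
  obtain ⟨p₀, hp₀⟩ := A.spans
  obtain ⟨D', rfl⟩ : ∃ D', D = D' + 1 :=
    Nat.exists_eq_succ_of_ne_zero (fun h0 => by subst h0; exact (p₀ 0).elim0)
  have h1 := P4a177x.spans A N hA hN η hη
  have h2 : (D'.factorial ^ 2) ^ (m + 2) * ((D' + 1) ^ 2) ^ (m + 2) =
      ((D' + 1).factorial ^ 2) ^ (m + 2) := by
    rw [Nat.factorial_succ, ← mul_pow, ← mul_pow, mul_comm D'.factorial]
  exact spannedBy_of_tor (mul_tor h2 h1)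

/-- The exact symbol part for arrangements in general position and for all arrangements of lines. -/
theorem spannedBy_all {m D : ℕ} (A : Arr (m + 2) D)
    (hA : m = 0 ∨ ∀ p : Fin (m + 2) → Fin D, Injective p → A.lam p ≠ 0) {N : ℕ} (hN : 1 ≤ N)
    {η : MilnorK (m + 2) (A.CoordRing N)} (hη : P4a177w.UnramifiedOverQ η) :
    P4a177u.SpannedBy (A.xi N) ((D.factorial ^ 2) ^ (m + 2)) η := by
  rcases hA with rfl | hA
  · exact spannedBy A hN hη
  · exact spannedBy_gp A hA hN hη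

/-- The number of the `ξ_B` for an arrangement of lines. -/
theorem card_two {m D : ℕ} (A : Arr (m + 2) D) (hm : m = 0) :
    Nat.card A.Idx + D = Nat.card {B : Fin (m + 2) ↪o Fin D // A.lam B ≠ 0} + 1 := by
  subst hm
  exact card_idx2 A

/-- **The final statement.** -/
theorem final {m D : ℕ} (A : Arr (m + 2) D) :
    (∃ (N₀ : ℕ) (C : ℝ), ∀ N : ℕ, N₀ ≤ N → A.Mod ∣ N →
      A.GeomIrreducible N ∧ A.Smooth N ∧
      (∀ B, Admissible (A.xi N B) ∧ UnramifiedEverywhere (A.xi N B)) ∧ DetAsymp A N C) ∧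
    (m = 0 → Nat.card A.Idx + D = Nat.card {B : Fin (m + 2) ↪o Fin D // A.lam B ≠ 0} + 1) ∧
    ((∀ p : Fin (m + 2) → Fin D, Injective p → A.lam p ≠ 0) →
      Nat.card A.Idx = (D - 1).choose (m + 2)) ∧
    ((m = 0 ∨ ∀ p : Fin (m + 2) → Fin D, Injective p → A.lam p ≠ 0) →
      ∀ (N : ℕ) (η : MilnorK (m + 2) (A.CoordRing N)), 1 ≤ N → P4a177w.UnramifiedOverQ η →
        P4a177u.SpannedBy (A.xi N) ((D.factorial ^ 2) ^ (m + 2)) η) :=
  ⟨main_xi (by omega) A, card_two A, fun hA => by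
    rw [Nat.card_eq_fintype_card]
    exact A.card_idx (by omega) hA, fun hA _ _ hN hη => spannedBy_all A hA hN hη⟩

end P4a177q
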