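import Pool.Agent.Lib.P4a177q.DtQ
import Pool.Agent.Lib.P4a177x.HenX
import Pool.Agent.Lib.P4a177x.PlcX

/-!
# MODULE P4a177q.HenQ: the places at infinity exist (Hensel's lemma)

PROOF. Model: `Lib/P4a177x/HenX.lean`, `PlcX.lean`. `beta i = a i 1 - q a i 0`, `z` the variable. We look for the point
`x_1 = y`, `x_0 = z⁻¹ - q y` (so `ℓ = z⁻¹`), `l_i = a i 0 z⁻¹ + beta i y + c i`, with `l_k = S`: `y = (S - c k - a k 0 z⁻¹) / beta k`, and
`l_i = (beta i / beta k) S + (dt A i k / beta k) z⁻¹ + (beta k c i - beta i c k) / beta k`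
(`dt A i k = a i 0 beta k - beta i a k 0`). Put `S = z ^ s / Q`, `s = deg A k ≥ 1`, `Q` a power series with constant coefficient `≠ 0`: the equation
`N ∏ l_i = 1` is (multiply the `s` factors with `dt A i k ≠ 0` by `z`)
`Q ^ (D + 1) = N ∏_{i ≠ k} ((C b_i + z e_i) Q + z h_i)` with
`b_i = dt A i k / beta k`, `e_i = C ((beta k c i - beta i c k) / beta k)`, `h_i = C (beta i / beta k) z ^ s` if `dt A i k ≠ 0`, and
`b_i = (beta k c i - beta i c k) / beta k` (`≠ 0` by `beta_ne`), `e_i = 0`, `h_i = C (beta i / beta k) z ^ (s - 1)` if `i ≠ k`, `dt A i k = 0`.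
This is exactly `P4a177x.HenXAux.exists_root` (with `L = ℚ`, `s = univ.erase k`, `N = (N : ℚ)`), which gives `Q` with the constant coefficient
`N ∏ b_i ≠ 0`, so `Q` is a unit of `ℚ[[z]]`. `φ` from `P4a177x.PlcXAux.exists_hom`. `U k = Q⁻¹`, `U i = C b_i + z e_i + z h_i Q⁻¹` (times nothing: for
`dt A i k ≠ 0` it is `z l_i`, for the others `l_i`).
-/

set_option autoImplicit false

namespace P4a177q

open P4a177h P4a177s P4a177x Function

theorem exists_pl {D : ℕ} (A : Arr 2 (D + 1)) {N : ℕ} (hN : 1 ≤ N) {q : ℤ}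
    (hq : ∀ k, A.a k 1 - q * A.a k 0 ≠ 0) (k : Fin (D + 1)) : Nonempty (Pl A N q k) := by
  classical
  set s : ℕ := deg A k with hs
  have hs1 : 1 ≤ s := deg_pos A k
  have hN' : (N : ℚ) ≠ 0 := by
    have : N ≠ 0 := by omega
    exact_mod_cast this
  set bt : Fin (D + 1) → ℚ := fun i => (A.a i 1 : ℚ) - (q : ℚ) * (A.a i 0 : ℚ) with hbt
  have hbk : bt k ≠ 0 := by
    have h1 : bt k = ((A.a k 1 - q * A.a k 0 : ℤ) : ℚ) := by
      rw [hbt]
      push_cast
      ring
    rw [h1]
    exact Int.cast_ne_zero.2 (hq k)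
  set r : Fin (D + 1) → ℚ := fun i => bt i / bt k with hr
  set g : Fin (D + 1) → ℚ := fun i => (bt k * (A.c i : ℚ) - bt i * (A.c k : ℚ)) / bt k with hg
  have hgne : ∀ i, i ≠ k → dt A i k = 0 → g i ≠ 0 := by
    intro i hik hdt
    have h1 := beta_ne A hik hdt (hq k)
    rw [hg]
    refine div_ne_zero ?_ hbk
    have h2 : bt k * (A.c i : ℚ) - bt i * (A.c k : ℚ) =
        (((A.a k 1 - q * A.a k 0) * A.c i - (A.a i 1 - q * A.a i 0) * A.c k : ℤ) : ℚ) := by
      rw [hbt]
      push_cast
      ring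
    rw [h2]
    exact Int.cast_ne_zero.2 h1
  set b : Fin (D + 1) → ℚ := fun i => if dt A i k ≠ 0 then (dt A i k : ℚ) / bt k else g i with hb
  have hbne : ∀ i, i ≠ k → b i ≠ 0 := by
    intro i hik
    rw [hb]
    by_cases h : dt A i k = 0
    · simp only [h, ne_eq, not_true_eq_false, if_false]
      exact hgne i hik h
    · simp only [ne_eq, h, not_false_eq_true, if_true]
      exact div_ne_zero (Int.cast_ne_zero.2 h) hbk
  obtain ⟨Q, hQ0, hQ⟩ := HenXAux.exists_root (Finset.univ.erase k) (N : ℚ) b hN'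
    (fun i hi' => hbne i (Finset.ne_of_mem_erase hi'))
    (fun i => if dt A i k ≠ 0 then PowerSeries.C (g i) else 0)
    (fun i => PowerSeries.C (r i) * PowerSeries.X ^ (if dt A i k ≠ 0 then s else s - 1))
  have hcard : (Finset.univ.erase k).card = D := by
    rw [Finset.card_erase_of_mem (Finset.mem_univ k), Finset.card_univ, Fintype.card_fin]
    rfl
  rw [hcard] at hQ
  have hQ0' : PowerSeries.constantCoeff Q ≠ 0 := by
    rw [hQ0]
    exact mul_ne_zero hN' (Finset.prod_ne_zero_iff.2 fun i hi' =>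
      hbne i (Finset.ne_of_mem_erase hi'))
  have hQQ : Q * Q⁻¹ = 1 := PowerSeries.mul_inv_cancel Q hQ0'
  set T : Fin (D + 1) → PowerSeries ℚ := fun i => (PowerSeries.C (b i) + PowerSeries.X *
    (if dt A i k ≠ 0 then PowerSeries.C (g i) else 0)) + PowerSeries.X *
      (PowerSeries.C (r i) * PowerSeries.X ^ (if dt A i k ≠ 0 then s else s - 1)) * Q⁻¹ with hT
  have hTQ : ∀ i, (PowerSeries.C (b i) + PowerSeries.X *
      (if dt A i k ≠ 0 then PowerSeries.C (g i) else 0)) * Q + PowerSeries.X *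
      (PowerSeries.C (r i) * PowerSeries.X ^ (if dt A i k ≠ 0 then s else s - 1)) = T i * Q := by
    intro i
    rw [hT]
    simp only
    generalize (PowerSeries.C (b i) + PowerSeries.X *
      (if dt A i k ≠ 0 then PowerSeries.C (g i) else 0)) = u1
    generalize PowerSeries.X *
      (PowerSeries.C (r i) * PowerSeries.X ^ (if dt A i k ≠ 0 then s else s - 1)) = u2
    rw [add_mul, mul_assoc u2, mul_comm Q⁻¹ Q, hQQ, mul_one]
  have hprod : (N : PowerSeries ℚ) * ∏ i ∈ Finset.univ.erase k, T i = Q := by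
    rw [Finset.prod_congr rfl fun i _ => hTQ i, Finset.prod_mul_distrib, Finset.prod_const,
      hcard, map_natCast] at hQ
    have hQD : Q ^ D * (Q⁻¹) ^ D = 1 := by rw [← mul_pow, hQQ, one_pow]
    calc (N : PowerSeries ℚ) * ∏ i ∈ Finset.univ.erase k, T i =
        ((N : PowerSeries ℚ) * ((∏ i ∈ Finset.univ.erase k, T i) * Q ^ D)) * (Q⁻¹) ^ D := by
          calc _ = ((N : PowerSeries ℚ) * ∏ i ∈ Finset.univ.erase k, T i) *
              (Q ^ D * (Q⁻¹) ^ D) := by rw [hQD, mul_one]
            _ = _ := by ring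
      _ = Q ^ (D + 1) * (Q⁻¹) ^ D := by rw [← hQ]
      _ = Q * (Q ^ D * (Q⁻¹) ^ D) := by ring
      _ = Q := by rw [hQD, mul_one]
  set ι : PowerSeries ℚ →+* LaurentSeries ℚ := HahnSeries.ofPowerSeries ℤ ℚ with hι
  set z' : LaurentSeries ℚ := HahnSeries.single (-1 : ℤ) 1 with hz'
  have hzX : z' * ι PowerSeries.X = 1 := by
    rw [hι, HahnSeries.ofPowerSeries_X, hz', HahnSeries.single_mul_single]
    simp
  have hsD : (HahnSeries.single (s : ℤ) 1 : LaurentSeries ℚ) = ι (PowerSeries.X ^ s) := by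
    rw [hι, HahnSeries.ofPowerSeries_X_pow]
  set κ : ℚ →+* LaurentSeries ℚ := ι.comp PowerSeries.C with hκ
  set S : LaurentSeries ℚ := ι (PowerSeries.X ^ s) * ι Q⁻¹ with hS
  set y : LaurentSeries ℚ := κ (bt k)⁻¹ * (S - κ (A.c k : ℚ) - κ (A.a k 0 : ℚ) * z') with hy
  set x : Fin 2 → LaurentSeries ℚ := ![z' - κ (q : ℚ) * y, y] with hx
  have hx0 : x 0 = z' - κ (q : ℚ) * y := rfl
  have hx1 : x 1 = y := rfl
  have hform0 : ∀ i, A.form i x = κ (r i) * S + κ ((dt A i k : ℚ) / bt k) * z' + κ (g i) := by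
    intro i
    unfold Arr.form
    rw [Fin.sum_univ_two, hx0, hx1]
    have e1 : ∀ z : ℤ, (z : LaurentSeries ℚ) = κ (z : ℚ) := fun z => by rw [map_intCast]
    rw [e1, e1, e1]
    have e2 : κ (A.a i 0 : ℚ) * (z' - κ (q : ℚ) * y) + κ (A.a i 1 : ℚ) * y + κ (A.c i : ℚ) =
        κ (A.a i 0 : ℚ) * z' + κ (bt i) * y + κ (A.c i : ℚ) := by
      rw [hbt]
      simp only [map_sub, map_mul]
      ring
    rw [e2, hy]
    have e3 : κ (bt i) * (κ (bt k)⁻¹ * (S - κ (A.c k : ℚ) - κ (A.a k 0 : ℚ) * z')) =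
        κ (r i) * S - κ (r i * (A.c k : ℚ)) - κ (r i * (A.a k 0 : ℚ)) * z' := by
      rw [hr]
      simp only [div_eq_mul_inv, map_mul]
      ring
    have e4 : (dt A i k : ℚ) / bt k = (A.a i 0 : ℚ) - r i * (A.a k 0 : ℚ) := by
      rw [hr, div_eq_iff hbk]
      simp only
      rw [sub_mul, mul_assoc, mul_comm (A.a k 0 : ℚ) (bt k), ← mul_assoc, div_mul_cancel₀ _ hbk]
      rw [hbt]
      unfold dt
      push_cast
      ring
    have e5 : g i = (A.c i : ℚ) - r i * (A.c k : ℚ) := by
      show (bt k * (A.c i : ℚ) - bt i * (A.c k : ℚ)) / bt k =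
        (A.c i : ℚ) - bt i / bt k * (A.c k : ℚ)
      rw [sub_div, mul_div_cancel_left₀ _ hbk, div_mul_eq_mul_div]
    rw [e3, e4, e5]
    simp only [map_sub, map_mul]
    ring
  have hformk : A.form k x = S := by
    rw [hform0 k]
    have e1 : r k = 1 := div_self hbk
    have e2 : (dt A k k : ℚ) / bt k = 0 := by rw [dt_self, Int.cast_zero, zero_div]
    have e3 : g k = 0 := by
      rw [hg]
      simp only [sub_self, zero_div]
    rw [e1, e2, e3, map_one, map_zero, one_mul, zero_mul, add_zero, add_zero]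
  have hformi : ∀ i, A.form i x = (if dt A i k ≠ 0 then z' else 1) * ι (T i) ∨ i = k := by
    intro i
    by_cases hik : i = k
    · exact Or.inr hik
    · left
      rw [hform0 i]
      by_cases h : dt A i k = 0
      · have e1 : T i = PowerSeries.C (g i) + PowerSeries.C (r i) *
            (PowerSeries.X ^ s * Q⁻¹) := by
          rw [hT]
          simp only [hb, h, ne_eq, not_true_eq_false, if_false, mul_zero, add_zero]
          have e2 : (PowerSeries.X : PowerSeries ℚ) ^ s =
              PowerSeries.X * PowerSeries.X ^ (s - 1) := by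
            rw [← pow_succ']
            congr 1
            omega
          rw [e2]
          ring
        rw [e1, h]
        simp only [ne_eq, not_true_eq_false, if_false, Int.cast_zero, zero_div, map_zero,
          zero_mul, add_zero, one_mul, map_add, map_mul, hκ, RingHom.comp_apply, hS]
        ring
      · have e1 : T i = PowerSeries.C ((dt A i k : ℚ) / bt k) + PowerSeries.X *
            (PowerSeries.C (g i) + PowerSeries.C (r i) * (PowerSeries.X ^ s * Q⁻¹)) := by
          rw [hT]
          simp only [hb, h, ne_eq, not_false_eq_true, if_true]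
          ring
        rw [e1]
        simp only [ne_eq, h, not_false_eq_true, if_true, map_add, hκ, RingHom.comp_apply, hS]
        rw [ι.map_mul PowerSeries.X, map_add, ι.map_mul (PowerSeries.C (r i)),
          ι.map_mul (PowerSeries.X ^ s), mul_add, ← mul_assoc z' (ι PowerSeries.X), hzX, one_mul]
        ring
  have hOn : A.On N x := by
    show (N : LaurentSeries ℚ) * ∏ i, A.form i x = 1
    have h1 : ∏ i ∈ Finset.univ.erase k, A.form i x = z' ^ s *
        ι (∏ i ∈ Finset.univ.erase k, T i) := by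
      rw [Finset.prod_congr rfl fun i hi' => (hformi i).resolve_right
        (Finset.ne_of_mem_erase hi'), Finset.prod_mul_distrib, ← map_prod]
      congr 1
      have h2 : ∏ i ∈ Finset.univ.erase k, (if dt A i k ≠ 0 then z' else 1) =
          ∏ i, (if dt A i k ≠ 0 then z' else 1) := by
        rw [← Finset.mul_prod_erase _ _ (Finset.mem_univ k), dt_self]
        simp
      rw [h2, Finset.prod_ite, Finset.prod_const, Finset.prod_const_one, mul_one]
      rfl
    rw [← Finset.mul_prod_erase _ _ (Finset.mem_univ k), hformk, h1]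
    have e1 : (N : LaurentSeries ℚ) = ι (N : PowerSeries ℚ) := by rw [map_natCast]
    rw [e1, hS, map_pow]
    calc ι (N : PowerSeries ℚ) * (ι PowerSeries.X ^ s * ι Q⁻¹ *
          (z' ^ s * ι (∏ i ∈ Finset.univ.erase k, T i)))
        = (z' * ι PowerSeries.X) ^ s * (ι ((N : PowerSeries ℚ) *
            ∏ i ∈ Finset.univ.erase k, T i) * ι Q⁻¹) := by
          rw [ι.map_mul (N : PowerSeries ℚ), mul_pow]
          generalize ι (N : PowerSeries ℚ) = u1
          generalize ι Q⁻¹ = u2
          generalize ι (∏ i ∈ Finset.univ.erase k, T i) = u3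
          ring
      _ = 1 := by rw [hzX, one_pow, one_mul, hprod, ← map_mul, hQQ, map_one]
  obtain ⟨φ, hφ⟩ := PlcXAux.exists_hom A N κ x hOn
  have hφc : ∀ j, φ (A.coord N j) = x j := by
    intro j
    unfold Arr.coord
    rw [hφ, MvPolynomial.eval₂_X]
  have hφl : ∀ i, φ (lu A N i) = A.form i x := by
    intro i
    show φ (A.form i (A.coord N)) = _
    rw [A.form_map]
    congr 1
    funext j
    exact hφc j
  set U : Fin (D + 1) → PowerSeries ℚ := fun i => if i = k then Q⁻¹ else T i with hU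
  have hUk : U k = Q⁻¹ := by
    rw [hU]
    simp
  have hUi : ∀ i, i ≠ k → U i = T i := by
    intro i hik
    rw [hU]
    simp [hik]
  have hU0 : ∀ i, PowerSeries.constantCoeff (U i) ≠ 0 := by
    intro i
    by_cases hik : i = k
    · rw [hik, hUk, PowerSeries.constantCoeff_inv]
      exact inv_ne_zero hQ0'
    · rw [hUi i hik, hT]
      simp only [map_add, map_mul, PowerSeries.constantCoeff_X, zero_mul, add_zero,
        PowerSeries.constantCoeff_C]
      exact hbne i hik
  exact ⟨{
    φ := φ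
    U := U
    u := fun i => Units.mk0 (PowerSeries.constantCoeff (U i)) (hU0 i)
    hu := fun i => rfl
    hk := by
      show φ (lu A N k) = HahnSeries.single (s : ℤ) 1 * ι (U k)
      rw [hφl, hformk, hUk, hsD]
    hi := fun i h => by
      show φ (lu A N i) = z' * ι (U i)
      have hik : i ≠ k := by
        intro h'
        apply h
        rw [h', dt_self]
      rw [hφl, (hformi i).resolve_right hik, if_pos h, hUi i hik]
    hp := fun i hik h => by
      show φ (lu A N i) = ι (U i)
      rw [hφl, (hformi i).resolve_right hik, if_neg (fun h' => h' h), hUi i hik, one_mul]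
    hl := by
      rw [map_add, map_mul, map_intCast, hφc, hφc, hx0, hx1]
      have e1 : (q : LaurentSeries ℚ) = κ (q : ℚ) := by rw [map_intCast]
      rw [e1, sub_add_cancel] }⟩

end P4a177q
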