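import Pool.Agent.Lib.P4a177q.PsiQ
import Pool.Agent.Lib.P4a177x.InjX

/-!
# The expansions at the places at infinity are injective

The coordinate ring is a domain; it is generated over `ℚ[ℓ]` by `x_1`, which is algebraic over `ℚ[ℓ]`, and
the expansion is injective on `ℚ[ℓ]`.
-/

set_option autoImplicit false

namespace P4a177q

open P4a177h P4a177s P4a177x Function Polynomial

theorem pl_inj {D : ℕ} (A : Arr 2 (D + 1)) {N : ℕ} (hN : 1 ≤ N) {q : ℤ}
    (hq : ∀ k, A.a k 1 - q * A.a k 0 ≠ 0) {k : Fin (D + 1)} (P : Pl A N q k) :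
    Injective P.φ := by
  have := isDomain A le_rfl N hN
  let alg : Algebra ℚ[X] (A.CoordRing N) := ((ev A N q).comp (C : ℚ[X] →+* ℚ[X][X])).toAlgebra
  have hmap : ∀ s : ℚ[X], algebraMap ℚ[X] (A.CoordRing N) s = ev A N q (C s) := fun _ => rfl
  have haev : ∀ G : ℚ[X][X], aeval (A.coord N 1) G = ev A N q G := by
    intro G
    have h1 : ((aeval (A.coord N 1) : ℚ[X][X] →ₐ[ℚ[X]] A.CoordRing N) : ℚ[X][X] →+* _) =
        ev A N q := by
      apply Polynomial.ringHom_ext
      · intro a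
        rw [RingHom.coe_coe, aeval_C, hmap]
      · rw [RingHom.coe_coe, aeval_X]
        unfold ev
        rw [coe_eval₂RingHom, eval₂_X]
    exact RingHom.congr_fun h1 G
  have hne : eqY A N q ≠ 0 := by
    intro h
    have h1 := eqY_degree A N q hN hq
    rw [h, natDegree_zero] at h1
    omega
  have hy : IsAlgebraic ℚ[X] (A.coord N 1) :=
    ⟨eqY A N q, hne, by rw [haev]; exact ev_eqY A N q⟩
  set 𝔸 := Subalgebra.algebraicClosure ℚ[X] (A.CoordRing N) with h𝔸
  have hy' : A.coord N 1 ∈ 𝔸 := hy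
  refine InjXAux.alg_inj (S := ℚ[X]) P.φ ?_ ?_
  · intro r
    obtain ⟨G, rfl⟩ := exists_rep A N q r
    rw [← haev G]
    have h1 := aeval_subalgebra_coe G 𝔸 ⟨A.coord N 1, hy'⟩
    exact h1 ▸ (aeval (⟨A.coord N 1, hy'⟩ : 𝔸) G).2
  · intro s hs
    rw [hmap, pl_ev P, map_C, eval_C]
    intro h
    exact hs (psi_injective (h.trans (map_zero _).symm))

end P4a177q
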