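import Pool.Agent.Lib.P4a177q.InjQ
import Pool.Agent.Lib.P4a177x.TfX

/-!
# MODULE P4a177q.TQ: the functionals of the places on `K_2` of the function field

PROOF. Copy of `P4a177x.exists_TF` (`Lib/P4a177x/TfX.lean`) with `m = 0`, `L = ℚ`, `P.inj` = `pl_inj`, and the leading terms on `ℚ`:
`Lead ℚ 0` with `ι = RingHom.id`, `o = 0`, `c = MonoidHom.id` (`st`: `Or.inl`, the functions on `Fin 0` are equal). The formula: for
`a = (c, l_(J 0))` the term `i = 1` contains the row of the constant, `0`; the term `i = 0` is `o (l_(J 0)) 0 * ord_p c` and the order of `l_i` at `P` is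
`deg A k`, `-1`, `0` (`Pl.hk`, `Pl.hi`, `Pl.hp`).
-/

set_option autoImplicit false

namespace P4a177q

open P4a177h P4a177s P4a177x Function

namespace TQAux

/-- The leading terms on the rational numbers. -/
noncomputable def L0 : Lead ℚ 0 where
  ι := RingHom.id ℚ
  o := 0
  c := MonoidHom.id ℚˣ
  rat := fun _ => ⟨rfl, Units.ext rfl⟩
  st := fun _ _ _ => Or.inl ⟨Subsingleton.elim _ _, Subsingleton.elim _ _⟩

end TQAux

open TfXAux TQAux

theorem exists_TQ {D : ℕ} (A : Arr 2 (D + 1)) {N : ℕ} (hN : 1 ≤ N) {q : ℤ}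
    (hq : ∀ k, A.a k 1 - q * A.a k 0 ≠ 0) {k : Fin (D + 1)} (P : Pl A N q k) (K : Type)
    [Field K] [Algebra (A.CoordRing N) K] [IsFractionRing (A.CoordRing N) K] :
    ∃ (v : Valuation K (WithZero (Multiplicative ℤ)))
      (T : ∀ (p : ℕ) [Fact p.Prime], MilnorK 2 K →+ ℤ),
      (∀ t : ℚˣ, v (algebraMap (A.CoordRing N) K (algebraMap ℚ (A.CoordRing N) t)) = 1) ∧
      (∀ (p : ℕ) [Fact p.Prime] (ξ : MilnorK 2 K), Unramified v ξ → T p ξ = 0) ∧
      ∀ (p : ℕ) [Fact p.Prime] (c : ℚˣ) (J : Fin 1 → Fin (D + 1)),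
        T p (map (algebraMap (A.CoordRing N) K)
          (symb (Fin.cons (P4a177w.cs (A.CoordRing N) c) (fun b => lu A N (J b))))) =
          padicValRat p (c : ℚ) *
            (if J 0 = k then (deg A k : ℤ) else if dt A (J 0) k = 0 then 0 else -1) := by
  classical
  obtain ⟨Λ', hΛ'⟩ := lead_laurent L0
  have inj := pl_inj A hN hq P
  obtain ⟨ψ, hψ⟩ : ∃ ψ : K →+* LaurentSeries ℚ, ∀ r : A.CoordRing N,
      ψ (algebraMap (A.CoordRing N) K r) = P.φ r :=
    ⟨IsFractionRing.lift inj, fun r => IsFractionRing.lift_algebraMap inj r⟩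
  -- the pull back of the leading terms
  have hψι : (ψ.comp ((algebraMap (A.CoordRing N) K).comp (algebraMap ℚ (A.CoordRing N)))) =
      Λ'.ι := Subsingleton.elim _ _
  have hψU : ∀ q : ℚˣ, Units.map (ψ : K →* LaurentSeries ℚ) (Units.map
      (((algebraMap (A.CoordRing N) K).comp (algebraMap ℚ (A.CoordRing N)) : ℚ →+* K) : ℚ →* K) q) =
      Units.map (Λ'.ι : ℚ →* LaurentSeries ℚ) q := fun q =>
    Units.ext (DFunLike.congr_fun hψι (q : ℚ))
  let Λ₂ : Lead K 1 :=
    { ι := (algebraMap (A.CoordRing N) K).comp (algebraMap ℚ (A.CoordRing N))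
      o := Λ'.o.comp (MonoidHom.toAdditive (Units.map (ψ : K →* LaurentSeries ℚ)))
      c := Λ'.c.comp (Units.map (ψ : K →* LaurentSeries ℚ))
      rat := fun q => by
        have h := Λ'.rat q
        rw [← hψU q] at h
        exact h
      st := fun f g hfg => by
        have h := Λ'.st (Units.map (ψ : K →* LaurentSeries ℚ) f)
          (Units.map (ψ : K →* LaurentSeries ℚ) g) (by
            show ψ (f : K) + ψ (g : K) = 1
            rw [← map_add, hfg, map_one])
        exact h }
  have ho2 : ∀ f : Kˣ, Λ₂.o (Additive.ofMul f) =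
      Λ'.o (Additive.ofMul (Units.map (ψ : K →* LaurentSeries ℚ) f)) := fun _ => rfl
  have hc2 : ∀ f : Kˣ, Λ₂.c f = Λ'.c (Units.map (ψ : K →* LaurentSeries ℚ) f) := fun _ => rfl
  have hT : ∀ (p : ℕ) [Fact p.Prime], ∃ T : MilnorK 2 K →+ ℤ, ∀ a : Fin 2 → Kˣ,
      T (symb a) = ∑ i : Fin 2, (-1) ^ (i : ℕ) *
        (Matrix.of fun s t : Fin 1 => Λ₂.o (Additive.ofMul (a (i.succAbove s))) t).det *
        padicValRat p (Λ₂.c (a i)) := fun p _ => exists_T Λ₂ p
  choose T hTs using hT
  refine ⟨(vls ℚ).comap ψ, T, fun t => ?_, fun p _ ξ hξ => ?_, fun p _ c J => ?_⟩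
  · -- the constants
    rw [Valuation.comap_apply, hψ]
    have h : P.φ.comp (algebraMap ℚ (A.CoordRing N)) =
        (HahnSeries.C : ℚ →+* LaurentSeries ℚ) := Subsingleton.elim _ _
    have h2 : P.φ (algebraMap ℚ (A.CoordRing N) t) = HahnSeries.C (t : ℚ) :=
      DFunLike.congr_fun h (t : ℚ)
    rw [h2]
    exact vls_const _ t.ne_zero
  · -- the unramified elements
    obtain ⟨k, hk, hmem⟩ := hξ
    have hz : T p (k • ξ) = 0 := by
      refine AddSubgroup.closure_induction (p := fun x _ => T p x = 0) ?_ (map_zero _)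
        (fun x y _ _ hx hy => by rw [map_add, hx, hy, add_zero])
        (fun x _ hx => by rw [map_neg, hx, neg_zero]) hmem
      rintro x ⟨a, ha, rfl⟩
      rw [hTs]
      refine Finset.sum_eq_zero fun i _ => ?_
      rw [Matrix.det_eq_zero_of_column_eq_zero 0, mul_zero, zero_mul]
      intro s
      rw [Matrix.of_apply, ho2]
      obtain ⟨n, U, u, hU, hf⟩ := unit_form
        (Units.map (ψ : K →* LaurentSeries ℚ) (a (i.succAbove s)))
      rw [(hΛ' n U u _ hU hf).1]
      have h1 := ha (i.succAbove s)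
      rw [Valuation.comap_apply] at h1
      rw [Units.coe_map] at hf
      change ψ _ = _ at hf
      rw [hf] at h1
      rw [Fin.cons_zero]
      exact n_zero hU h1
    rw [map_nsmul] at hz
    exact (smul_eq_zero_iff_right hk.ne').mp hz
  · -- the formula
    rw [map_symb, hTs]
    have hconst : ∀ c : ℚˣ, Units.map (algebraMap (A.CoordRing N) K : (A.CoordRing N) →* K)
        (P4a177w.cs (A.CoordRing N) c) = Units.map (Λ₂.ι : ℚ →* K) c := fun c => Units.ext rfl
    rw [Fin.sum_univ_succ]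
    have hz : ∀ i : Fin 1, (-1 : ℤ) ^ ((i.succ : Fin 2) : ℕ) *
        (Matrix.of fun s t : Fin 1 => Λ₂.o (Additive.ofMul
          (Units.map (algebraMap (A.CoordRing N) K : (A.CoordRing N) →* K)
            ((Fin.cons (P4a177w.cs (A.CoordRing N) c) (fun b => lu A N (J b)) :
              Fin 2 → (A.CoordRing N)ˣ) (i.succ.succAbove s)))) t).det *
        padicValRat p (Λ₂.c (Units.map (algebraMap (A.CoordRing N) K : (A.CoordRing N) →* K)
            ((Fin.cons (P4a177w.cs (A.CoordRing N) c) (fun b => lu A N (J b)) :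
              Fin 2 → (A.CoordRing N)ˣ) i.succ))) = 0 := by
      intro i
      rw [Matrix.det_eq_zero_of_row_eq_zero 0, mul_zero, zero_mul]
      intro t
      rw [Matrix.of_apply, Fin.succ_succAbove_zero, Fin.cons_zero, hconst, (Λ₂.rat c).1]
      rfl
    rw [Finset.sum_eq_zero fun i _ => hz i, add_zero]
    have hc0 : Λ₂.c (Units.map (algebraMap (A.CoordRing N) K : (A.CoordRing N) →* K)
        ((Fin.cons (P4a177w.cs (A.CoordRing N) c) (fun b => lu A N (J b)) :
          Fin 2 → (A.CoordRing N)ˣ) 0)) = c := by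
      rw [Fin.cons_zero, hconst, (Λ₂.rat c).2]
    rw [hc0]
    have ho3 : ∀ i, Λ₂.o (Additive.ofMul (Units.map
        (algebraMap (A.CoordRing N) K : (A.CoordRing N) →* K) (lu A N i))) 0 =
        if i = k then (deg A k : ℤ) else if dt A i k = 0 then 0 else -1 := by
      intro i
      rw [ho2]
      have key : ∀ (n : ℤ), P.φ (lu A N i) =
          HahnSeries.single n 1 * (P.U i : LaurentSeries ℚ) →
          Λ'.o (Additive.ofMul (Units.map (ψ : K →* LaurentSeries ℚ) (Units.map
            (algebraMap (A.CoordRing N) K : (A.CoordRing N) →* K) (lu A N i)))) 0 = n := by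
        intro n hn
        rw [(hΛ' n (P.U i) (P.u i) _ (P.hu i) (by
          show ψ (algebraMap (A.CoordRing N) K (lu A N i : A.CoordRing N)) = _
          rw [hψ, hn])).1]
        rfl
      split_ifs with h h2
      · exact key _ (by rw [h, P.hk])
      · exact key 0 (by
          rw [P.hp i h h2]
          show _ = (1 : LaurentSeries ℚ) * _
          rw [one_mul])
      · exact key _ (P.hi i h2)
    simp only [Fin.val_zero, pow_zero, one_mul, Fin.zero_succAbove, Fin.cons_succ,
      Matrix.det_unique, Matrix.of_apply, Fin.default_eq_zero]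
    rw [ho3, mul_comm]

end P4a177q
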