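import Pool.Agent.Lib.P4a177q.UniQ
import Pool.Agent.Lib.P4a177q.TQ
import Pool.Agent.Lib.P4a177x.MainX

/-!
# The element with constant entries is torsion
-/

set_option autoImplicit false

namespace P4a177q

open P4a177h P4a177s P4a177x Function

variable {D : ℕ}

/-- The `p`-adic valuation of the nonzero rational numbers, as a homomorphism. -/
noncomputable def vp (p : ℕ) [Fact p.Prime] : Additive ℚˣ →+ ℤ :=
  AddMonoidHom.mk' (fun a => padicValRat p (a.toMul : ℚ)) (fun a b => by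
    show padicValRat p ((a.toMul * b.toMul : ℚˣ) : ℚ) = _
    rw [Units.val_mul, padicValRat.mul a.toMul.ne_zero b.toMul.ne_zero])

theorem vp_apply (p : ℕ) [Fact p.Prime] (a : ℚˣ) :
    vp p (Additive.ofMul a) = padicValRat p (a : ℚ) := rfl

/-- All the constants are equal up to the sign. -/
theorem const_eq (A : Arr 2 (D + 1)) {N : ℕ} (hN : 1 ≤ N) (c : Fin (D + 1) → ℚˣ)
    (hc : ∀ (K : Type) [Field K] [Algebra (A.CoordRing N) K] [IsFractionRing (A.CoordRing N) K]
      (v : Valuation K (WithZero (Multiplicative ℤ))) (T : MilnorK 2 K →+ ℤ),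
      (∀ t : ℚˣ, v (algebraMap (A.CoordRing N) K (algebraMap ℚ (A.CoordRing N) t)) = 1) →
      (∀ ξ : MilnorK 2 K, Unramified v ξ → T ξ = 0) →
      T (map (algebraMap (A.CoordRing N) K) (∑ J : Fin 1 → Fin (D + 1), symb (Fin.cons
        (P4a177w.cs (A.CoordRing N) (c (J 0))) (fun b => lu A N (J b))))) = 0)
    (i : Fin (D + 1)) : c i ^ 2 = c 0 ^ 2 := by
  obtain ⟨q, hq⟩ := exists_q A
  have hdom := isDomain A (by omega) N hN
  have hr : Equivalence fun i k => dt A i k = 0 := dt_equiv A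
  have key : ∀ (p : ℕ) [Fact p.Prime], padicValRat p (c i : ℚ) = padicValRat p (c 0 : ℚ) := by
    intro p hp
    refine lap_const (fun i k => dt A i k = 0) hr (fun k => deg_pos A k)
      (fun i => padicValRat p (c i : ℚ)) (fun k => ?_) i 0
    obtain ⟨P⟩ := exists_pl A hN hq k
    obtain ⟨v, T, h1, h2, h3⟩ := exists_TQ A hN hq P (FractionRing (A.CoordRing N))
    have h4 := hc (FractionRing (A.CoordRing N)) v (T p) h1 (fun ξ hξ => h2 p ξ hξ)
    rw [map_sum, map_sum] at h4
    rw [Finset.sum_congr rfl fun J _ => h3 p (c (J 0)) J] at h4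
    rw [← (Equiv.funUnique (Fin 1) (Fin (D + 1))).symm.sum_comp] at h4
    have h5 : ∀ i : Fin (D + 1), ((Equiv.funUnique (Fin 1) (Fin (D + 1))).symm i) 0 = i :=
      fun i => rfl
    simp only [h5] at h4
    have h6 : ∀ i : Fin (D + 1), padicValRat p (c i : ℚ) *
        (if i = k then (deg A k : ℤ) else if dt A i k = 0 then 0 else -1) =
        (if i = k then padicValRat p (c k : ℚ) * (deg A k : ℤ) else 0) -
          (if ¬ dt A i k = 0 then padicValRat p (c i : ℚ) else 0) := by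
      intro i
      by_cases hik : i = k
      · subst hik
        simp [dt_self]
      · by_cases h : dt A i k = 0
        · simp [hik, h]
        · simp [hik, h]
    rw [Finset.sum_congr rfl fun i _ => h6 i, Finset.sum_sub_distrib, Finset.sum_ite_eq',
      if_pos (Finset.mem_univ k), ← Finset.sum_filter] at h4
    have h7 : (sd (fun i k => dt A i k = 0) k : ℤ) = (deg A k : ℤ) := rfl
    rw [h7]
    linarith
  have h8 : c i / c 0 = 1 ∨ c i / c 0 = -1 := by
    apply eq_one_of_padic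
    intro p hp
    have h9 := map_sub (vp p) (Additive.ofMul (c i)) (Additive.ofMul (c 0))
    rw [vp_apply, vp_apply, key p, sub_self, ← ofMul_div, vp_apply] at h9
    exact h9
  have h10 : (c i / c 0) ^ 2 = 1 := by
    rcases h8 with h | h <;> rw [h] <;> norm_num
  rw [div_pow, div_eq_one] at h10
  exact h10

theorem sum_last {V G : Type*} [AddCommGroup V] [AddCommGroup G] {n : ℕ}
    (f : V [⋀^Fin 2]→ₗ[ℤ] G) (x : V) (l : Fin n → V) :
    ∑ J : Fin 1 → Fin n, f (Fin.cons x (fun a => l (J a))) = f (Fin.cons x fun _ => ∑ i, l i) := by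
  rw [← (Equiv.funUnique (Fin 1) (Fin n)).symm.sum_comp]
  have h3 : ∀ y : V, f (Fin.cons x fun _ => y) =
      f (update (Fin.cons x (fun _ => 0) : Fin 2 → V) 1 y) := by
    intro y
    congr 1
    funext a
    refine Fin.cases ?_ (fun b => ?_) a
    · rw [Fin.cons_zero, update_of_ne (by decide), Fin.cons_zero]
    · rw [Fin.cons_succ, Subsingleton.elim b 0]
      rfl
  rw [h3]
  have h4 := f.toMultilinearMap.map_update_sum Finset.univ (1 : Fin 2) l
    (Fin.cons x (fun _ => 0))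
  refine Eq.trans ?_ h4.symm
  refine Finset.sum_congr rfl fun i _ => ?_
  exact h3 (l i)

theorem kill_abs {V G : Type*} [AddCommGroup V] [AddCommGroup G] (f : V [⋀^Fin 2]→ₗ[ℤ] G)
    (tf : ∀ (k : ℕ) (x : G), 0 < k → k • x = 0 → x = 0) (l cc : Fin (D + 1) → V)
    (hcc : ∀ i, 2 • cc i = 2 • cc 0) (h0 : f (Fin.cons (2 • cc 0) fun _ => ∑ i, l i) = 0) :
    ∑ J : Fin 1 → Fin (D + 1), f (Fin.cons (cc (J 0)) (fun a => l (J a))) = 0 := by
  refine tf 2 _ (by norm_num) ?_
  rw [Finset.smul_sum]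
  have h2 : ∀ J : Fin 1 → Fin (D + 1), 2 • f (Fin.cons (cc (J 0)) (fun a => l (J a))) =
      f (Fin.cons (2 • cc 0) (fun a => l (J a))) := fun J => by
    rw [← hcc (J 0)]
    exact two_smul_cons (k := 1) f _ _
  rw [Finset.sum_congr rfl fun J _ => h2 J, sum_last]
  exact h0

/-- The element with constant entries is torsion. -/
theorem kill_zeta (A : Arr 2 (D + 1)) {N : ℕ} (hN : 1 ≤ N)
    {S : Alt (A.CoordRing N) 2 (MilnorK 2 (A.CoordRing N) ⧸ Tor 2 (A.CoordRing N))}
    (hS : ∀ a : Fin 2 → (A.CoordRing N)ˣ,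
      S.f (fun k => Additive.ofMul (a k)) = QuotientAddGroup.mk (symb a))
    (c : (Fin 1 → Fin (D + 1)) → ℚˣ)
    (hc : ∀ (K : Type) [Field K] [Algebra (A.CoordRing N) K] [IsFractionRing (A.CoordRing N) K]
      (v : Valuation K (WithZero (Multiplicative ℤ))) (T : MilnorK 2 K →+ ℤ),
      (∀ t : ℚˣ, v (algebraMap (A.CoordRing N) K (algebraMap ℚ (A.CoordRing N) t)) = 1) →
      (∀ ξ : MilnorK 2 K, Unramified v ξ → T ξ = 0) →
      T (map (algebraMap (A.CoordRing N) K) (∑ J, symb (Fin.cons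
        (P4a177w.cs (A.CoordRing N) (c J)) (fun b => lu A N (J b))))) = 0) :
    ∑ J, symb (Fin.cons (P4a177w.cs (A.CoordRing N) (c J)) (fun b => lu A N (J b))) ∈
      Tor 2 (A.CoordRing N) := by
  rw [← QuotientAddGroup.eq_zero_iff]
  have hJ : ∀ J : Fin 1 → Fin (D + 1), c J = c (fun _ => J 0) := by
    intro J
    congr 1
    funext a
    rw [Subsingleton.elim a 0]
  obtain ⟨d, hd⟩ : ∃ d : Fin (D + 1) → ℚˣ, ∀ i, d i = c (fun _ => i) := ⟨_, fun _ => rfl⟩
  have hJ' : ∀ J : Fin 1 → Fin (D + 1), c J = d (J 0) := fun J => by rw [hd, ← hJ]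
  simp only [hJ'] at hc ⊢
  have h1 := const_eq A hN d hc
  set l : Fin (D + 1) → Additive (A.CoordRing N)ˣ := fun k => Additive.ofMul (lu A N k) with hl
  set cc : Fin (D + 1) → Additive (A.CoordRing N)ˣ := fun i =>
    Additive.ofMul (P4a177w.cs (A.CoordRing N) (d i)) with hcc
  have hcc2 : ∀ i, 2 • cc i = 2 • cc 0 := by
    intro i
    rw [hcc]
    show 2 • Additive.ofMul (P4a177w.cs (A.CoordRing N) (d i)) =
      2 • Additive.ofMul (P4a177w.cs (A.CoordRing N) (d 0))
    rw [← ofMul_pow, ← map_pow, h1 i, map_pow, ofMul_pow]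
  have e1 : (QuotientAddGroup.mk' (Tor 2 (A.CoordRing N)))
      (∑ J : Fin 1 → Fin (D + 1), symb (Fin.cons (P4a177w.cs (A.CoordRing N) (d (J 0)))
        (fun b => lu A N (J b)))) =
      ∑ J : Fin 1 → Fin (D + 1), S.f (Fin.cons (cc (J 0)) (fun a => l (J a))) := by
    rw [map_sum]
    refine Finset.sum_congr rfl fun J _ => ?_
    have h := hS (Fin.cons (P4a177w.cs (A.CoordRing N) (d (J 0))) (fun b => lu A N (J b)))
    rw [ofMul_cons] at h
    exact h.symm
  have e3 : ∑ J : Fin 1 → Fin (D + 1), S.f (Fin.cons (cc (J 0)) (fun a => l (J a))) = 0 := by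
    refine kill_abs S.f S.tf l cc hcc2 ?_
    refine const_const S _ 0 1 (by decide) ?_ ?_
    · have h2 : cc 0 ∈ CC (A.CoordRing N) := ⟨Additive.ofMul (d 0), rfl⟩
      exact AddSubgroup.nsmul_mem _ h2 2
    · exact sum_mem_CC A N hN
  rw [← e1] at e3
  exact e3

end P4a177q
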