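import Mathlib

/-!
# MODULE P4a177q.LapQ: the Laplacian of a complete multipartite graph

PROOFS. Write `s k = sd r k`, `m k = #{i | r i k}`, `s k + m k = D + 1`, `r k k`, so `1 ≤ s k ≤ D` and `s k ∣ D !`; if `r i k`
then `s i = s k`, `m i = m k` and the classes are equal (`hr.trans`, `hr.symm`).
`lap_solve`: `κ k = (D ! / s k) * ((D + 1) * v k - V k)`, `V k = ∑_{i, r i k} v i`. The sum of `κ i` over the class of `k` is
`(D ! / s k) ((D + 1) V k - m k V k) = D ! V k`. The sum of `κ i` over all `i` with `¬ r i k` is `- D ! V k`: the sum over all `i`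
minus the class, and the sum of `κ` over everything is `∑_i D ! / s i * (D + 1) v i - ∑_i (D ! / s i) V i`, where
`∑_i (D ! / s i) V i = ∑_i ∑_{j, r j i} (D ! / s i) v j = ∑_j m j (D ! / s j) v j`, so it is `∑_j D ! v j = 0`.
`lap_kill`: `B = ∑ b`, `B k = ∑_{i, r i k} b i`: `s k b k = B - B k`; sum over the class: `s k B k = m k B - m k B k`, so
`(D + 1) B k = m k B`, `(D + 1) s k b k = (D + 1) B - m k B = s k B`. For `k₀`: `s k₀ B = 0`. So
`s k₀ (D + 1) s k b k = 0` and multiply by `(D ! / s k₀) (D ! / s k)`.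
`lap_const`: the same computation gives `(D + 1) b k = B` for all `k`.
-/

set_option autoImplicit false

namespace P4a177q

open Function

variable {D : ℕ} (r : Fin (D + 1) → Fin (D + 1) → Prop) [DecidableRel r]

/-- The number of the elements which are not equivalent to `k`. -/
def sd (k : Fin (D + 1)) : ℕ := (Finset.univ.filter fun i => ¬ r i k).card

namespace LapQAux

/-- The number of the elements which are equivalent to `k`. -/
def md (k : Fin (D + 1)) : ℕ := (Finset.univ.filter fun i => r i k).card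

theorem sd_add_md (k : Fin (D + 1)) : sd r k + md r k = D + 1 := by
  unfold sd md
  have h := Finset.card_filter_add_card_filter_not (s := Finset.univ)
    (fun i : Fin (D + 1) => r i k)
  rw [Finset.card_univ, Fintype.card_fin] at h
  omega

theorem md_pos (hr : Equivalence r) (k : Fin (D + 1)) : 1 ≤ md r k :=
  Finset.card_pos.2 ⟨k, Finset.mem_filter.2 ⟨Finset.mem_univ k, hr.refl k⟩⟩

theorem sd_le (hr : Equivalence r) (k : Fin (D + 1)) : sd r k ≤ D := by
  have h1 := sd_add_md r k
  have h2 := md_pos r hr k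
  omega

theorem cls (hr : Equivalence r) {i k : Fin (D + 1)} (h : r i k) :
    (Finset.univ.filter fun j => r j i) = Finset.univ.filter fun j => r j k := by
  ext j
  simp only [Finset.mem_filter, Finset.mem_univ, true_and]
  exact ⟨fun h1 => hr.trans h1 h, fun h1 => hr.trans h1 (hr.symm h)⟩

theorem md_cls (hr : Equivalence r) {i k : Fin (D + 1)} (h : r i k) : md r i = md r k := by
  unfold md
  rw [cls r hr h]

theorem sd_cls (hr : Equivalence r) {i k : Fin (D + 1)} (h : r i k) : sd r i = sd r k := by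
  have h1 := sd_add_md r i
  have h2 := sd_add_md r k
  have h3 := md_cls r hr h
  omega

theorem split {W : Type*} [AddCommGroup W] (b : Fin (D + 1) → W) (k : Fin (D + 1)) :
    ∑ i ∈ Finset.univ.filter (fun i => ¬ r i k), b i =
      ∑ i, b i - ∑ i ∈ Finset.univ.filter (fun i => r i k), b i := by
  rw [eq_sub_iff_add_eq, add_comm]
  exact Finset.sum_filter_add_sum_filter_not Finset.univ (fun i => r i k) b

/-- The basic computation. -/
theorem key (hr : Equivalence r) {W : Type*} [AddCommGroup W] (b : Fin (D + 1) → W)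
    (hb : ∀ k, sd r k • b k = ∑ i ∈ Finset.univ.filter (fun i => ¬ r i k), b i)
    (k : Fin (D + 1)) : (D + 1) • (sd r k • b k) = sd r k • ∑ i, b i := by
  set B := ∑ i, b i with hB
  have h1 : ∀ k, sd r k • b k = B - ∑ i ∈ Finset.univ.filter (fun i => r i k), b i := by
    intro k
    rw [hb, split]
  set C := ∑ i ∈ Finset.univ.filter (fun i => r i k), b i with hC
  have h2 : sd r k • C = md r k • B - md r k • C := by
    rw [hC, Finset.smul_sum]
    have h3 : ∀ i ∈ Finset.univ.filter (fun i => r i k), sd r k • b i = B - C := by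
      intro i hi
      have h4 : r i k := (Finset.mem_filter.1 hi).2
      rw [← sd_cls r hr h4, h1 i, cls r hr h4]
    rw [Finset.sum_congr rfl h3, Finset.sum_const, smul_sub]
    rfl
  have h5 : (D + 1) • C = md r k • B := by
    rw [← sd_add_md r k, add_smul, h2, sub_add_cancel]
  rw [h1 k, smul_sub, h5, ← sd_add_md r k, add_smul]
  abel

end LapQAux

open LapQAux

theorem lap_kill (hr : Equivalence r) (h1 : ∀ k, 1 ≤ sd r k) {W : Type*} [AddCommGroup W]
    (b : Fin (D + 1) → W) (k₀ : Fin (D + 1)) (h0 : b k₀ = 0)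
    (hb : ∀ k, sd r k • b k = ∑ i ∈ Finset.univ.filter (fun i => ¬ r i k), b i)
    (k : Fin (D + 1)) : (D.factorial * (D + 1).factorial) • b k = 0 := by
  have h2 := key r hr b hb k₀
  rw [h0, smul_zero, smul_zero] at h2
  have h3 := key r hr b hb k
  have h4 : (sd r k₀ * ((D + 1) * sd r k)) • b k = 0 := by
    rw [mul_smul, mul_smul, h3, smul_comm, ← h2, smul_zero]
  obtain ⟨x, hx⟩ := Nat.dvd_factorial (h1 k₀) (sd_le r hr k₀)
  obtain ⟨y, hy⟩ := Nat.dvd_factorial (h1 k) (sd_le r hr k)
  have h5 : D.factorial * (D + 1).factorial = (x * y) * (sd r k₀ * ((D + 1) * sd r k)) := by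
    rw [Nat.factorial_succ]
    calc D.factorial * ((D + 1) * D.factorial) =
        (sd r k₀ * x) * ((D + 1) * (sd r k * y)) := by rw [← hx, ← hy]
      _ = _ := by ring
  rw [h5, mul_smul, h4, smul_zero]

theorem lap_const (hr : Equivalence r) (h1 : ∀ k, 1 ≤ sd r k) (b : Fin (D + 1) → ℤ)
    (hb : ∀ k, (sd r k : ℤ) * b k = ∑ i ∈ Finset.univ.filter (fun i => ¬ r i k), b i)
    (k k' : Fin (D + 1)) : b k = b k' := by
  have h2 : ∀ k, ((D : ℤ) + 1) * b k = ∑ i, b i := by
    intro k
    have h3 := key r hr b (fun k => by rw [nsmul_eq_mul]; exact hb k) k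
    rw [nsmul_eq_mul, nsmul_eq_mul, nsmul_eq_mul] at h3
    have h4 : (sd r k : ℤ) ≠ 0 := by
      have := h1 k
      omega
    apply mul_left_cancel₀ h4
    rw [← h3]
    push_cast
    ring
  have h5 : ((D : ℤ) + 1) ≠ 0 := by omega
  apply mul_left_cancel₀ h5
  rw [h2, h2]

theorem lap_solve (hr : Equivalence r) (h1 : ∀ k, 1 ≤ sd r k) (v : Fin (D + 1) → ℤ)
    (hv : ∑ k, v k = 0) :
    ∃ κ : Fin (D + 1) → ℤ, ∀ k, (sd r k : ℤ) * κ k -
      ∑ i ∈ Finset.univ.filter (fun i => ¬ r i k), κ i = ((D + 1).factorial : ℤ) * v k := by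
  have h2 : ∀ k, ∃ x : ℕ, D.factorial = sd r k * x := fun k =>
    Nat.dvd_factorial (h1 k) (sd_le r hr k)
  choose x hx using h2
  have hxc : ∀ {i k}, r i k → x i = x k := by
    intro i k h
    have h3 := hx i
    rw [hx k, sd_cls r hr h] at h3
    exact (Nat.eq_of_mul_eq_mul_left (h1 k) h3).symm
  obtain ⟨V, hV⟩ : ∃ V : Fin (D + 1) → ℤ, ∀ k, V k =
      ∑ i ∈ Finset.univ.filter (fun i => r i k), v i := ⟨_, fun _ => rfl⟩
  have hVc : ∀ {i k}, r i k → V i = V k := by
    intro i k h
    rw [hV, hV, cls r hr h]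
  refine ⟨fun k => (x k : ℤ) * (((D : ℤ) + 1) * v k - V k), fun k => ?_⟩
  have e1 : ∀ k, ∑ i ∈ Finset.univ.filter (fun i => r i k),
      (x i : ℤ) * (((D : ℤ) + 1) * v i - V i) = (D.factorial : ℤ) * V k := by
    intro k
    have e2 : ∀ i ∈ Finset.univ.filter (fun i => r i k),
        (x i : ℤ) * (((D : ℤ) + 1) * v i - V i) =
        (x k : ℤ) * ((D : ℤ) + 1) * v i - (x k : ℤ) * V k := by
      intro i hi
      have h4 : r i k := (Finset.mem_filter.1 hi).2
      rw [hxc h4, hVc h4]
      ring
    rw [Finset.sum_congr rfl e2, Finset.sum_sub_distrib, ← Finset.mul_sum, ← hV,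
      Finset.sum_const, nsmul_eq_mul]
    have e3 : ((Finset.univ.filter fun i => r i k).card : ℤ) = (D : ℤ) + 1 - sd r k := by
      have h5 := sd_add_md r k
      unfold md at h5
      omega
    rw [e3, hx k]
    push_cast
    ring
  have e4 : ∑ i, (x i : ℤ) * (((D : ℤ) + 1) * v i - V i) = 0 := by
    have e5 : ∑ i, (x i : ℤ) * V i = ∑ j, ((D : ℤ) + 1 - sd r j) * (x j * v j) := by
      have e6 : ∀ i, (x i : ℤ) * V i = ∑ j, if r j i then (x j : ℤ) * v j else 0 := by
        intro i
        rw [hV, Finset.mul_sum, ← Finset.sum_filter]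
        refine Finset.sum_congr rfl fun j hj => ?_
        rw [hxc (Finset.mem_filter.1 hj).2]
      rw [Finset.sum_congr rfl fun i _ => e6 i, Finset.sum_comm]
      refine Finset.sum_congr rfl fun j _ => ?_
      rw [← Finset.sum_filter, Finset.sum_const, nsmul_eq_mul]
      have e7 : (Finset.univ.filter fun i => r j i) = Finset.univ.filter fun i => r i j := by
        ext i
        simp only [Finset.mem_filter, Finset.mem_univ, true_and]
        exact ⟨hr.symm, hr.symm⟩
      have h5 := sd_add_md r j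
      unfold md at h5
      rw [e7]
      congr 1
      omega
    have e8 : ∀ i, (x i : ℤ) * (((D : ℤ) + 1) * v i - V i) =
        ((D : ℤ) + 1) * ((x i : ℤ) * v i) - (x i : ℤ) * V i := fun i => by ring
    rw [Finset.sum_congr rfl fun i _ => e8 i, Finset.sum_sub_distrib, e5,
      ← Finset.sum_sub_distrib]
    have e9 : ∀ j, ((D : ℤ) + 1) * ((x j : ℤ) * v j) - ((D : ℤ) + 1 - sd r j) * (x j * v j) =
        (D.factorial : ℤ) * v j := by
      intro j
      rw [hx j]
      push_cast
      ring
    rw [Finset.sum_congr rfl fun j _ => e9 j, ← Finset.mul_sum, hv, mul_zero]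
  rw [split, e1, e4, Nat.factorial_succ]
  have e10 : (D.factorial : ℤ) = (sd r k : ℤ) * x k := by exact_mod_cast hx k
  push_cast
  rw [e10]
  ring

end P4a177q
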