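import Pool.Agent.Lib.P4a177x.MainX
import Pool.Agent.Lib.P4a177s.Integ

/-!
# MODULE P4a177q.OvQ: the `ξ_B` are unramified over `ℚ` for every arrangement and every `N ≥ 1`

PROOF. `Arr.adm_z` of `Lib/P4a177s/Integ.lean` with `G = 1`: there `Mod ∣ N` is only used to show that `v` is `1` on the minors, which is clear if `v` is trivial on the
nonzero integers. Then as in `Arr.unramified_z` and `P4a177x.xi_over` (`Lib/P4a177x/UnrX.lean`).
-/

set_option autoImplicit false

namespace P4a177q

open P4a177h P4a177s P4a177x Function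

namespace OvQAux

/-- The units `z i` are admissible at the valuations which are trivial on the integers. -/
theorem adm_z {n D : ℕ} {A : Arr n D} {K : Type*} [Field K]
    {Γ₀ : Type*} [LinearOrderedCommGroupWithZero Γ₀]
    (v : Valuation K Γ₀) {N : ℕ} (hN : 1 ≤ N) {x : Fin n → K} (h : A.On N x)
    (hv : ∀ q : ℤ, q ≠ 0 → v (q : K) = 1) (B : A.Idx) (z : Fin n → K)
    (hz : ∀ i, z i * ((A.lam B.1 : K) * A.form (Arr.f B i) x) =
      -(A.lam (Function.update B.1 i (Arr.f B i)) : K) * A.form (B.1 i) x) :
    (∀ i, v (z i) = 1) ∨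
      ∃ k, v (1 + ∑ i ∈ Finset.univ.filter (fun i => Arr.f B i = k), z i) < 1 ∨
        ∃ j, Arr.f B j = k ∧
          v (1 + ∑ i ∈ Finset.univ.filter (fun i => Arr.f B i = k), z i) < v (z j) := by
  by_cases hmain : ∃ k, v (1 + ∑ i ∈ Finset.univ.filter (fun i => Arr.f B i = k), z i) < 1 ∨
        ∃ j, Arr.f B j = k ∧
          v (1 + ∑ i ∈ Finset.univ.filter (fun i => Arr.f B i = k), z i) < v (z j)
  · exact Or.inr hmain
  left
  push Not at hmain
  have hvle : ∀ q : ℤ, v (q : K) ≤ 1 := fun q => v_intCast_le v q
  have hlam : ∀ p : Fin n → Fin D, A.lam p ≠ 0 → v (A.lam p : K) = 1 := fun p hp => hv _ hp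
  have hlB : A.lam B.1 ≠ 0 := B.2.1
  -- the bound for the forms of the base
  have hbase : ∀ m : ℕ, ∀ i, (Arr.f B i : ℕ) = m → v (A.form (B.1 i) x) ≤ 1 := by
    intro m
    induction m using Nat.strong_induction_on with
    | _ m ih =>
      intro i hi
      set k := Arr.f B i with hk
      have hkS := (hmain k).2 i hk.symm
      set S := Finset.univ.filter (fun i => Arr.f B i = k) with hS
      set R : K := ∑ j ∈ Sᶜ, (A.lam (Function.update B.1 j k) : K) * A.form (B.1 j) x +
        (A.kap B.1 k : K) with hR
      have hRv : v R ≤ 1 := by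
        refine (Valuation.map_add_le v (v.map_sum_le fun j hj => ?_) (hvle _))
        by_cases hb : A.lam (Function.update B.1 j k) = 0
        · rw [hb, Int.cast_zero, zero_mul, map_zero]
          exact zero_le
        · have hle := Arr.f_le B j k hb
          have hne : Arr.f B j ≠ k := by
            intro he
            rw [Finset.mem_compl] at hj
            exact hj (Finset.mem_filter.2 ⟨Finset.mem_univ j, he⟩)
          have hlt : (Arr.f B j : ℕ) < m := by
            have h1 : Arr.f B j < k := lt_of_le_of_ne hle hne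
            rw [← hi]
            exact h1
          rw [map_mul]
          exact mul_le_one' (hvle _) (ih _ hlt j rfl)
      have hsum : (1 + ∑ j ∈ S, z j) * ((A.lam B.1 : K) * A.form k x) = R := by
        rw [add_mul, one_mul, Finset.sum_mul]
        have h1 : ∀ j ∈ S, z j * ((A.lam B.1 : K) * A.form k x) =
            -((A.lam (Function.update B.1 j k) : K) * A.form (B.1 j) x) := by
          intro j hj
          have hj' : Arr.f B j = k := (Finset.mem_filter.1 hj).2
          have h2 := hz j
          rw [hj'] at h2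
          rw [h2, neg_mul]
        rw [Finset.sum_congr rfl h1, Finset.sum_neg_distrib, A.cramer B.1 k x, hR,
          ← Finset.sum_add_sum_compl S]
        ring
      have hzi : z i * ((A.lam B.1 : K) * A.form k x) =
          -((A.lam (Function.update B.1 i k) : K) * A.form (B.1 i) x) := by
        have h2 := hz i
        rw [← hk] at h2
        rw [h2, neg_mul]
      have hle : v ((A.lam (Function.update B.1 i k) : K) * A.form (B.1 i) x) ≤ v R := by
        rw [← hsum, ← Valuation.map_neg, ← hzi, map_mul v (z i),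
          map_mul v (1 + ∑ j ∈ S, z j)]
        exact mul_le_mul_left hkS _
      have hb : A.lam (Function.update B.1 i k) ≠ 0 := Arr.f_spec B i
      rw [map_mul, hlam _ hb, one_mul] at hle
      exact hle.trans hRv
  have hbase2 : ∀ i, v (A.form (B.1 i) x) ≤ 1 := fun i => hbase _ i rfl
  have hall : ∀ k, v (A.form k x) ≤ 1 := by
    intro k
    have h1 : v ((A.lam B.1 : K) * A.form k x) ≤ 1 := by
      rw [A.cramer B.1 k x]
      refine (Valuation.map_add_le v (v.map_sum_le fun j _ => ?_) (hvle _))
      rw [map_mul]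
      exact mul_le_one' (hvle _) (hbase2 j)
    rwa [map_mul, hlam _ hlB, one_mul] at h1
  have hprod : ∏ k, v (A.form k x) = 1 := by
    unfold Arr.On at h
    have h1 := congrArg v h
    rw [map_mul, map_prod, map_one] at h1
    have h2 : v (N : K) = 1 := by
      have := hv (N : ℤ) (by exact_mod_cast Nat.one_le_iff_ne_zero.1 hN)
      rwa [Int.cast_natCast] at this
    rwa [h2, one_mul] at h1
  have heq1 : ∀ k, v (A.form k x) = 1 := by
    intro k
    apply le_antisymm (hall k)
    rw [← hprod, ← Finset.mul_prod_erase Finset.univ (fun k => v (A.form k x)) (Finset.mem_univ k)]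
    exact mul_le_of_le_one_right' (Finset.prod_le_one' fun l _ => hall l)
  intro i
  have h1 := congrArg v (hz i)
  rw [map_mul, map_mul, map_mul, Valuation.map_neg, hlam _ hlB, hlam _ (Arr.f_spec B i),
    heq1, heq1, mul_one, mul_one] at h1
  exact h1

/-- The symbol of the `z i` is unramified at the valuations which are trivial on the integers. -/
theorem unramified_z {n D : ℕ} {A : Arr n D} {K : Type*} [Field K]
    (v : Valuation K (WithZero (Multiplicative ℤ))) {N : ℕ} (hN : 1 ≤ N)
    {x : Fin n → K} (h : A.On N x) (hv : ∀ q : ℤ, q ≠ 0 → v (q : K) = 1) (B : A.Idx)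
    (z : Fin n → Kˣ)
    (hz : ∀ i, (z i : K) * ((A.lam B.1 : K) * A.form (Arr.f B i) x) =
      -(A.lam (Function.update B.1 i (Arr.f B i)) : K) * A.form (B.1 i) x) :
    Unramified v (symb z) := by
  rcases adm_z v hN h hv B (fun i => (z i : K)) hz with h1 | ⟨k, h1 | ⟨j, hj, h1⟩⟩
  · exact unramified_symb v z (Or.inl h1)
  · exact unramified_of_sum v z _ (Or.inl h1)
  · exact unramified_of_sum v z _ (Or.inr ⟨j, by simp [hj], h1⟩)

end OvQAux

open OvQAux

theorem xi_over {n D : ℕ} (A : Arr n D) {N : ℕ} (hN : 1 ≤ N) (B : A.Idx) :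
    P4a177w.UnramifiedOverQ (A.xi N B) := by
  intro K _ _ _ v hv
  have hv' : ∀ q : ℤ, q ≠ 0 → v (q : K) = 1 := by
    intro q hq
    have h1 := hv (Units.mk0 (q : ℚ) (Int.cast_ne_zero.2 hq))
    rwa [Units.val_mk0, map_intCast, map_intCast] at h1
  unfold Arr.xi
  rw [map_symb]
  exact unramified_z v hN ((A.coord_on N).map (algebraMap (A.CoordRing N) K)) hv' B _
    fun i => Arr.z_map (algebraMap (A.CoordRing N) K) B i

end P4a177q
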