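import Pool.Agent.Lib.P4a177q.DtQ
import Pool.Agent.Lib.P4a177x.XiX

/-!
# MODULE P4a177q.ParQ: the symbols of two parallel lines, and the index set

PROOFS. `par_H2`: `i = j`: the value is `0` (alternating). `i ≠ j`: there is `t : Fin 2` with `A.a j t ≠ 0`, and
`A.a j t * l_i - A.a i t * l_j = A.a j t * c i - A.a i t * c j =: κ` as functions (`dt A i j = 0`), `κ ≠ 0` (`beta_ne` for a suitable `q`: if
`A.a j 0 ≠ 0` ... or directly: otherwise `l_i` and `l_j` have a common zero, `A.simple`; the easiest way is `beta_ne` with `q = 0` if `A.a j 1 ≠ 0`, and for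
`A.a j 1 = 0` then `A.a i 1 = 0` and `beta_ne` with `q = 1`). So `(A.a j t / κ) l_i + (- A.a i t / κ) l_j = 1` is a Steinberg relation (`A.a i t ≠ 0` because the normals are proportional):
`S.st`, and `P4a177x.XiXAux.sub_mem_H2` compares it with `S.f ![l_i, l_j]`.
`exists_e`: `e` is the smallest index with `dt A e 0 ≠ 0`. `Arr.f B 0` is the smallest index which is not parallel to `B.1 1`: it is `0` if `dt A 0 (B.1 1) ≠ 0`, and `e`
otherwise; the same with `0`, `1` exchanged (`Arr.f_spec`, `Arr.f_le`, `dt_lam`, `dt_trans`, `Function.update` of `![i, j]`). Let `dt A i j ≠ 0`. Then `fi j := if dt A 0 j = 0 then e else 0`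
is `≤ i`. If `i = fi j` or `j = fi i` the value is `0`. Otherwise, if `i < j` then `B = ![i, j]` is in `A.Idx` and
`Arr.z .. B t = const * l_(B t) / l_(f B t)`, `sub_mem_H2`; if `j < i` exchange the two entries (`AlternatingMap.map_swap` or `map_perm`, sign `-1`).
-/

set_option autoImplicit false

namespace P4a177q

open P4a177h P4a177s P4a177x Function

variable {D : ℕ} (A : Arr 2 (D + 1)) (N : ℕ) {G : Type*} [AddCommGroup G]
  (S : Alt (A.CoordRing N) 2 G)
  (hC : ∀ (v : Fin 2 → Additive (A.CoordRing N)ˣ) (i j : Fin 2), i ≠ j →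
    v i ∈ CC (A.CoordRing N) → v j ∈ CC (A.CoordRing N) → S.f v = 0)

namespace ParQAux

section General

variable {R : Type*} [CommRing R] {H : Type*} [AddCommGroup H] (T : Alt R 2 H)

theorem f_self (x : Additive Rˣ) : T.f ![x, x] = 0 :=
  T.f.map_eq_zero_of_eq _ (i := (0 : Fin 2)) (j := (1 : Fin 2)) rfl (by decide)

theorem f_zero_left {x : Additive Rˣ} (y : Additive Rˣ) (h : x = 0) : T.f ![x, y] = 0 :=
  T.f.map_coord_zero (0 : Fin 2) h

theorem f_zero_right (x : Additive Rˣ) {y : Additive Rˣ} (h : y = 0) : T.f ![x, y] = 0 :=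
  T.f.map_coord_zero (1 : Fin 2) h

theorem f_swap (x y : Additive Rˣ) : T.f ![y, x] = -T.f ![x, y] := by
  have h4 := T.f.map_swap ![x, y] (i := (0 : Fin 2)) (j := (1 : Fin 2)) (by decide)
  have h5 : ![x, y] ∘ (Equiv.swap (0 : Fin 2) 1) = ![y, x] := by
    funext t
    fin_cases t
    · rfl
    · rfl
  rwa [h5] at h4

end General

/-- proportional normals -/
theorem exists_pqr {i j : Fin (D + 1)} (hij : i ≠ j) (h : dt A i j = 0) :
    ∃ p q r : ℤ, p ≠ 0 ∧ q ≠ 0 ∧ r ≠ 0 ∧ (∀ l, p * A.a i l = q * A.a j l) ∧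
      p * A.c i - q * A.c j = r := by
  have hd := h
  unfold dt at hd
  by_cases h1 : A.a j 1 = 0
  · have h0 : A.a j 0 ≠ 0 := by
      rcases DtQAux.ne_zero_or A j with h' | h'
      · exact h'
      · exact absurd h1 h'
    have hi1 : A.a i 1 = 0 := by
      rw [h1, mul_zero, zero_sub, neg_eq_zero] at hd
      exact (mul_eq_zero.1 hd).resolve_right h0
    have hi0 : A.a i 0 ≠ 0 := by
      rcases DtQAux.ne_zero_or A i with h' | h'
      · exact h'
      · exact absurd hi1 h'
    have hb := beta_ne A hij h (q := 1) (by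
      rw [h1, one_mul, zero_sub]
      exact neg_ne_zero.2 h0)
    refine ⟨A.a j 0, A.a i 0, A.a j 0 * A.c i - A.a i 0 * A.c j, h0, hi0, ?_, ?_, rfl⟩
    · intro h2
      apply hb
      rw [h1, hi1]
      linear_combination -h2
    · intro l
      fin_cases l
      · show A.a j 0 * A.a i 0 = A.a i 0 * A.a j 0
        exact mul_comm _ _
      · show A.a j 0 * A.a i 1 = A.a i 0 * A.a j 1
        rw [h1, hi1, mul_zero, mul_zero]
  · have hi1 : A.a i 1 ≠ 0 := by
      intro h2
      rw [h2, zero_mul, sub_zero] at hd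
      have h3 : A.a i 0 = 0 := (mul_eq_zero.1 hd).resolve_right h1
      rcases DtQAux.ne_zero_or A i with h' | h'
      · exact h' h3
      · exact h' h2
    have hb := beta_ne A hij h (q := 0) (by
      rw [zero_mul, sub_zero]
      exact h1)
    refine ⟨A.a j 1, A.a i 1, A.a j 1 * A.c i - A.a i 1 * A.c j, h1, hi1, ?_, ?_, rfl⟩
    · intro h2
      apply hb
      linear_combination h2
    · intro l
      fin_cases l
      · show A.a j 1 * A.a i 0 = A.a i 1 * A.a j 0
        linear_combination hd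
      · show A.a j 1 * A.a i 1 = A.a i 1 * A.a j 1
        exact mul_comm _ _

theorem cs_mem (q : ℚˣ) :
    Additive.ofMul (P4a177w.cs (A.CoordRing N) q) ∈ CC (A.CoordRing N) :=
  ⟨Additive.ofMul q, rfl⟩

theorem lu_mem (i : Fin (D + 1)) : Additive.ofMul (lu A N i) ∈
    AddSubgroup.closure (Set.range fun k => Additive.ofMul (lu A N k)) :=
  AddSubgroup.subset_closure ⟨i, rfl⟩

/-- the smallest line which is not parallel to the line `j` -/
theorem exists_min : ∃ e : Fin (D + 1), dt A e 0 ≠ 0 ∧ ∀ k, dt A k 0 ≠ 0 → e ≤ k := by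
  classical
  have h1 := deg_pos A 0
  have hne : (Finset.univ.filter fun i => dt A i 0 ≠ 0).Nonempty := by
    rw [← Finset.card_pos]
    exact h1
  refine ⟨(Finset.univ.filter fun i => dt A i 0 ≠ 0).min' hne, ?_, fun k hk => ?_⟩
  · exact (Finset.mem_filter.1 (Finset.min'_mem _ hne)).2
  · exact Finset.min'_le _ _ (Finset.mem_filter.2 ⟨Finset.mem_univ k, hk⟩)

variable {A} in
theorem fi_spec {e : Fin (D + 1)} (he : dt A e 0 ≠ 0) (he' : ∀ k, dt A k 0 ≠ 0 → e ≤ k)
    (j : Fin (D + 1)) : dt A (if dt A 0 j = 0 then e else 0) j ≠ 0 ∧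
      ∀ k, dt A k j ≠ 0 → (if dt A 0 j = 0 then e else 0) ≤ k := by
  split_ifs with h
  · have h' : dt A j 0 = 0 := by rw [dt_symm, h, neg_zero]
    refine ⟨fun h2 => he (dt_trans A h2 h'), fun k hk => he' k fun h2 => hk (dt_trans A h2 h)⟩
  · exact ⟨h, fun k _ => Fin.zero_le k⟩

theorem dt_comm_ne {i j : Fin (D + 1)} (h : dt A i j ≠ 0) : dt A j i ≠ 0 := by
  rw [dt_symm]
  exact neg_ne_zero.2 h

theorem upd0 (i j k : Fin (D + 1)) : Function.update ![i, j] (0 : Fin 2) k = ![k, j] := by
  funext s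
  fin_cases s
  · simp
  · simp

theorem upd1 (i j k : Fin (D + 1)) : Function.update ![i, j] (1 : Fin 2) k = ![i, k] := by
  funext s
  fin_cases s
  · simp
  · simp

include hC

theorem key {e : Fin (D + 1)} (he : dt A e 0 ≠ 0) (he' : ∀ k, dt A k 0 ≠ 0 → e ≤ k)
    {i j : Fin (D + 1)} (hij : dt A i j ≠ 0) (hlt : i < j)
    (h1 : (if dt A 0 j = 0 then e else 0) < i) (h2 : (if dt A 0 i = 0 then e else 0) < j) :
    S.f ![Additive.ofMul (lu A N i) - Additive.ofMul (lu A N (if dt A 0 j = 0 then e else 0)),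
      Additive.ofMul (lu A N j) - Additive.ofMul (lu A N (if dt A 0 i = 0 then e else 0))] ∈
      AddSubgroup.closure (Set.range fun B : A.Idx =>
        S.f (fun t => Additive.ofMul (Arr.z (A.coord_on N) B t))) ⊔
      H2 S.f (CC (A.CoordRing N)) (fun k => Additive.ofMul (lu A N k)) := by
  obtain ⟨p1, p2⟩ := fi_spec he he' j
  obtain ⟨q1, q2⟩ := fi_spec he he' i
  generalize (if dt A 0 j = 0 then e else 0) = Fj at *
  generalize (if dt A 0 i = 0 then e else 0) = Fi at *
  have hmono : StrictMono ![i, j] := by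
    intro s t hst
    fin_cases s <;> fin_cases t
    · exact absurd hst (lt_irrefl _)
    · exact hlt
    · exact absurd hst (by decide)
    · exact absurd hst (lt_irrefl _)
  have hco : ((OrderEmbedding.ofStrictMono ![i, j] hmono : Fin 2 ↪o Fin (D + 1)) :
      Fin 2 → Fin (D + 1)) = ![i, j] := rfl
  have u0 : ∀ k, A.lam (Function.update ![i, j] (0 : Fin 2) k) = dt A k j := fun k => by
    rw [upd0, dt_lam]
  have u1 : ∀ k, A.lam (Function.update ![i, j] (1 : Fin 2) k) = dt A i k := fun k => by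
    rw [upd1, dt_lam]
  let B : A.Idx := ⟨OrderEmbedding.ofStrictMono ![i, j] hmono, by
    rw [hco]
    refine ⟨by rw [← dt_lam]; exact hij, fun s => ?_⟩
    fin_cases s
    · exact ⟨Fj, h1, by show A.lam (Function.update ![i, j] (0 : Fin 2) Fj) ≠ 0; rw [u0]; exact p1⟩
    · exact ⟨Fi, h2, by
        show A.lam (Function.update ![i, j] (1 : Fin 2) Fi) ≠ 0
        rw [u1]
        exact dt_comm_ne A q1⟩⟩
  have f0 : Arr.f B 0 = Fj := by
    refine le_antisymm (Arr.f_le B 0 Fj ?_) (p2 _ ?_)
    · show A.lam (Function.update ![i, j] (0 : Fin 2) Fj) ≠ 0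
      rw [u0]
      exact p1
    · have h3 := Arr.f_spec B 0
      rw [← u0]
      exact h3
  have f1 : Arr.f B 1 = Fi := by
    refine le_antisymm (Arr.f_le B 1 Fi ?_) (q2 _ ?_)
    · show A.lam (Function.update ![i, j] (1 : Fin 2) Fi) ≠ 0
      rw [u1]
      exact dt_comm_ne A q1
    · have h3 := Arr.f_spec B 1
      apply dt_comm_ne
      rw [← u1]
      exact h3
  have hf : ∀ s, Arr.f B s = ![Fj, Fi] s := by
    intro s
    fin_cases s
    · exact f0
    · exact f1
  have hsub := XiXAux.sub_mem_H2 S.f (CC (A.CoordRing N)) (fun k => Additive.ofMul (lu A N k)) hC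
    (fun t => Additive.ofMul (Arr.z (A.coord_on N) B t))
    (fun t => Additive.ofMul (lu A N (![i, j] t)) - Additive.ofMul (lu A N (![Fj, Fi] t)))
    (fun t => by
      have h2 : Additive.ofMul (Arr.z (A.coord_on N) B t) -
          (Additive.ofMul (lu A N (![i, j] t)) - Additive.ofMul (lu A N (![Fj, Fi] t))) =
          Additive.ofMul (intUnit (A.CoordRing N)
            (-A.lam (Function.update B.1 t (Arr.f B t))) (neg_ne_zero.2 (Arr.f_spec B t))) -
          Additive.ofMul (intUnit (A.CoordRing N) (A.lam B.1) B.2.1) := by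
        rw [← hf t]
        show Additive.ofMul ((_ * _) / (_ * _)) - (Additive.ofMul _ - Additive.ofMul _) = _
        rw [ofMul_div, ofMul_mul, ofMul_mul]
        show _ + Additive.ofMul (lu A N (![i, j] t)) - (_ + Additive.ofMul (lu A N (Arr.f B t))) -
          (Additive.ofMul (lu A N (![i, j] t)) - Additive.ofMul (lu A N (Arr.f B t))) = _
        abel
      show Additive.ofMul (Arr.z (A.coord_on N) B t) -
          (Additive.ofMul (lu A N (![i, j] t)) - Additive.ofMul (lu A N (![Fj, Fi] t))) ∈ _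
      rw [h2]
      exact sub_mem (cs_mem A N _) (cs_mem A N _))
    (fun t => sub_mem (lu_mem A N _) (lu_mem A N _))
  have hvec : (fun t => Additive.ofMul (lu A N (![i, j] t)) -
      Additive.ofMul (lu A N (![Fj, Fi] t))) =
      ![Additive.ofMul (lu A N i) - Additive.ofMul (lu A N Fj),
        Additive.ofMul (lu A N j) - Additive.ofMul (lu A N Fi)] := by
    funext t
    fin_cases t
    · rfl
    · rfl
  rw [hvec] at hsub
  have h5 := sub_mem (AddSubgroup.mem_sup_left (AddSubgroup.subset_closure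
    (k := Set.range fun B : A.Idx => S.f (fun t => Additive.ofMul (Arr.z (A.coord_on N) B t)))
    ⟨B, rfl⟩)) (AddSubgroup.mem_sup_right (S := AddSubgroup.closure (Set.range fun B : A.Idx =>
        S.f (fun t => Additive.ofMul (Arr.z (A.coord_on N) B t)))) hsub)
  rwa [sub_sub_cancel] at h5

end ParQAux

include hC

theorem par_H2 {i j : Fin (D + 1)} (h : dt A i j = 0) :
    S.f ![Additive.ofMul (lu A N i), Additive.ofMul (lu A N j)] ∈
      H2 S.f (CC (A.CoordRing N)) (fun k => Additive.ofMul (lu A N k)) := by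
  by_cases hij : i = j
  · subst hij
    rw [ParQAux.f_self S]
    exact zero_mem _
  · obtain ⟨p, q, r, hp, hq, hr, ha, hc⟩ := ParQAux.exists_pqr A hij h
    have hpr : (p / r : ℚ) ≠ 0 := div_ne_zero (by exact_mod_cast hp) (by exact_mod_cast hr)
    have hqr : (-(q / r : ℚ)) ≠ 0 :=
      neg_ne_zero.2 (div_ne_zero (by exact_mod_cast hq) (by exact_mod_cast hr))
    have hr' : (r : ℚ) ≠ 0 := by exact_mod_cast hr
    let R := A.CoordRing N
    let x : Rˣ := P4a177w.cs R (Units.mk0 _ hpr) * lu A N i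
    let y : Rˣ := P4a177w.cs R (Units.mk0 _ hqr) * lu A N j
    have hform : (p : R) * A.form i (A.coord N) - (q : R) * A.form j (A.coord N) = (r : R) := by
      unfold Arr.form
      rw [Fin.sum_univ_two, Fin.sum_univ_two]
      have h0 : (p : R) * (A.a i 0 : R) = (q : R) * (A.a j 0 : R) := by
        have h' : ((p * A.a i 0 : ℤ) : R) = ((q * A.a j 0 : ℤ) : R) := by rw [ha 0]
        rwa [Int.cast_mul, Int.cast_mul] at h'
      have h1 : (p : R) * (A.a i 1 : R) = (q : R) * (A.a j 1 : R) := by
        have h' : ((p * A.a i 1 : ℤ) : R) = ((q * A.a j 1 : ℤ) : R) := by rw [ha 1]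
        rwa [Int.cast_mul, Int.cast_mul] at h'
      have h2 : (p : R) * (A.c i : R) - (q : R) * (A.c j : R) = (r : R) := by
        have h' : ((p * A.c i - q * A.c j : ℤ) : R) = ((r : ℤ) : R) := by rw [hc]
        rwa [Int.cast_sub, Int.cast_mul, Int.cast_mul] at h'
      linear_combination (A.coord N 0) * h0 + (A.coord N 1) * h1 + h2
    have hx : (x : R) = algebraMap ℚ R (1 / r) * ((p : R) * A.form i (A.coord N)) := by
      show algebraMap ℚ R (p / r) * A.form i (A.coord N) = _
      have h3 : (p / r : ℚ) = 1 / r * p := by ring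
      rw [h3, map_mul, map_intCast]
      ring
    have hy : (y : R) = -(algebraMap ℚ R (1 / r) * ((q : R) * A.form j (A.coord N))) := by
      show algebraMap ℚ R (-(q / r)) * A.form j (A.coord N) = _
      have h3 : (-(q / r) : ℚ) = -(1 / r * q) := by ring
      rw [h3, map_neg, map_mul, map_intCast]
      ring
    have hxy : (x : R) + (y : R) = 1 := by
      rw [hx, hy, ← sub_eq_add_neg, ← mul_sub, hform]
      rw [← map_intCast (algebraMap ℚ R) r, ← map_mul, one_div, inv_mul_cancel₀ hr', map_one]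
    have hst : S.f (fun k => Additive.ofMul (![x, y] k)) = 0 := S.st ![x, y] 0 1 (by decide) hxy
    have hsub := XiXAux.sub_mem_H2 S.f (CC (A.CoordRing N))
      (fun k => Additive.ofMul (lu A N k)) hC
      (fun k => Additive.ofMul (![x, y] k)) ![Additive.ofMul (lu A N i), Additive.ofMul (lu A N j)]
      (fun t => by
        fin_cases t
        · show Additive.ofMul x - Additive.ofMul (lu A N i) ∈ _
          show Additive.ofMul (P4a177w.cs R (Units.mk0 _ hpr) * lu A N i) -
            Additive.ofMul (lu A N i) ∈ _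
          rw [ofMul_mul, add_sub_cancel_right]
          exact ParQAux.cs_mem A N _
        · show Additive.ofMul (P4a177w.cs R (Units.mk0 _ hqr) * lu A N j) -
            Additive.ofMul (lu A N j) ∈ _
          rw [ofMul_mul, add_sub_cancel_right]
          exact ParQAux.cs_mem A N _)
      (fun t => by
        fin_cases t
        · exact ParQAux.lu_mem A N i
        · exact ParQAux.lu_mem A N j)
    rw [hst, zero_sub] at hsub
    exact neg_mem_iff.1 hsub

theorem exists_e : ∃ e : Fin (D + 1), dt A e 0 ≠ 0 ∧ ∀ i j, dt A i j ≠ 0 →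
    S.f ![Additive.ofMul (lu A N i) - Additive.ofMul (lu A N (if dt A 0 j = 0 then e else 0)),
      Additive.ofMul (lu A N j) - Additive.ofMul (lu A N (if dt A 0 i = 0 then e else 0))] ∈
      AddSubgroup.closure (Set.range fun B : A.Idx =>
        S.f (fun t => Additive.ofMul (Arr.z (A.coord_on N) B t))) ⊔
      H2 S.f (CC (A.CoordRing N)) (fun k => Additive.ofMul (lu A N k)) := by
  obtain ⟨e, he, he'⟩ := ParQAux.exists_min A
  refine ⟨e, he, fun i j hij => ?_⟩
  have hji := ParQAux.dt_comm_ne A hij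
  have p2 := (ParQAux.fi_spec he he' j).2 i hij
  have q2 := (ParQAux.fi_spec he he' i).2 j hji
  by_cases h1 : (if dt A 0 j = 0 then e else 0) = i
  · rw [ParQAux.f_zero_left S _ (by rw [h1]; exact sub_self _)]
    exact zero_mem _
  by_cases h2 : (if dt A 0 i = 0 then e else 0) = j
  · rw [ParQAux.f_zero_right S _ (by rw [h2]; exact sub_self _)]
    exact zero_mem _
  have l1 := lt_of_le_of_ne p2 h1
  have l2 := lt_of_le_of_ne q2 h2
  rcases lt_trichotomy i j with h | h | h
  · exact ParQAux.key A N S hC he he' hij h l1 l2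
  · subst h
    exact absurd (dt_self A i) hij
  · have h3 := ParQAux.key A N S hC he he' hji h l2 l1
    rw [ParQAux.f_swap S]
    exact neg_mem h3

end P4a177q
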