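import Pool.Agent.Lib.P4a177q.LapQ

/-!
# MODULE P4a177q.SpnQ: the pairs are spanned by the pairs of the non-tree edges

PROOF. Work in `W = G ⧸ H`, `br i j = [f ![l i, l j]]`: `br i i = 0`, `br j i = - br i j`, `br i j = 0` if `r i j` (`hp`), `∑_i br i j = 0` (`hs`), and for
`¬ r i j`: `br i j - br i (fi i) - br (fi j) j + br (fi j) (fi i) = 0` (`hx`, bilinearity), `fi i = if r 0 i then e else 0`. Put
`b j = if r 0 j then br 0 e - br j e else br 0 j`. Then `b 0 = 0` and `br i j = b j - b i` for all `i, j` with `¬ r i j`: both not equivalent to `0`: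
`br i j = br i 0 + br 0 j`; `r 0 i`, `¬ r 0 j`: `br i j = br i e + br 0 j - br 0 e`; `¬ r 0 i`, `r 0 j`: by antisymmetry; both equivalent to `0` is impossible. So
`0 = ∑_j br j i` over `¬ r j i` is `sd r i • b i - ∑ b j`: this is the hypothesis `hb` of `lap_kill` (`k₀ = 0`), so `D ! (D + 1) !` kills all `b j` and
all `br i j`. (`QuotientAddGroup.eq_zero_iff`; `f ![x, y]`: `AlternatingMap.map_vecCons_add`, or write the bilinear map `fun x y => f ![x, y]` with `Matrix.vecCons`
updates `AlternatingMap.map_update_add/sub`.)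
-/

set_option autoImplicit false

namespace P4a177q

open Function

namespace SpnQAux

theorem upd0 {V : Type*} (x y z : V) : Function.update ![x, y] 0 z = ![z, y] := by
  ext i
  fin_cases i <;> simp

theorem upd1 {V : Type*} (x y z : V) : Function.update ![x, y] 1 z = ![x, z] := by
  ext i
  fin_cases i <;> simp

variable {V G : Type*} [AddCommGroup V] [AddCommGroup G]

theorem addL (f : V [⋀^Fin 2]→ₗ[ℤ] G) (x x' y : V) :
    f ![x + x', y] = f ![x, y] + f ![x', y] := by
  have h := f.map_update_add ![x, y] 0 x x'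
  rwa [upd0, upd0, upd0] at h

theorem addR (f : V [⋀^Fin 2]→ₗ[ℤ] G) (x y y' : V) :
    f ![x, y + y'] = f ![x, y] + f ![x, y'] := by
  have h := f.map_update_add ![x, y] 1 y y'
  rwa [upd1, upd1, upd1] at h

theorem diag (f : V [⋀^Fin 2]→ₗ[ℤ] G) (x : V) : f ![x, x] = 0 :=
  f.map_eq_zero_of_eq ![x, x] (i := 0) (j := 1) rfl (by decide)

theorem anti (f : V [⋀^Fin 2]→ₗ[ℤ] G) (x y : V) : f ![y, x] = -f ![x, y] := by
  have h := diag f (x + y)
  rw [addL, addR, addR, diag, diag, zero_add, add_zero] at h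
  exact (neg_eq_of_add_eq_zero_right h).symm

/-- The map `x ↦ f ![x, y]`. -/
def homL (f : V [⋀^Fin 2]→ₗ[ℤ] G) (y : V) : V →+ G :=
  AddMonoidHom.mk' (fun x => f ![x, y]) fun a b => addL f a b y

theorem subL (f : V [⋀^Fin 2]→ₗ[ℤ] G) (x x' y : V) :
    f ![x - x', y] = f ![x, y] - f ![x', y] :=
  map_sub (homL f y) x x'

theorem subR (f : V [⋀^Fin 2]→ₗ[ℤ] G) (x y y' : V) :
    f ![x, y - y'] = f ![x, y] - f ![x, y'] := by
  rw [anti f (y - y') x, subL, anti f y x, anti f y' x]
  abel

theorem sumL {ι : Type*} (f : V [⋀^Fin 2]→ₗ[ℤ] G) (s : Finset ι) (g : ι → V) (y : V) :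
    f ![∑ k ∈ s, g k, y] = ∑ k ∈ s, f ![g k, y] :=
  map_sum (homL f y) g s

end SpnQAux

open SpnQAux in
theorem spn {D : ℕ} (r : Fin (D + 1) → Fin (D + 1) → Prop) [DecidableRel r] (hr : Equivalence r)
    (h1 : ∀ k, 1 ≤ sd r k) {V G : Type*} [AddCommGroup V] [AddCommGroup G]
    (f : V [⋀^Fin 2]→ₗ[ℤ] G) (l : Fin (D + 1) → V) (H : AddSubgroup G) (e : Fin (D + 1))
    (he : ¬ r e 0) (hs : ∀ j, f ![∑ k, l k, l j] ∈ H)
    (hp : ∀ i j, r i j → f ![l i, l j] ∈ H)
    (hx : ∀ i j, ¬ r i j → f ![l i - l (if r 0 j then e else 0),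
      l j - l (if r 0 i then e else 0)] ∈ H) (i j : Fin (D + 1)) :
    (D.factorial * (D + 1).factorial) • f ![l i, l j] ∈ H := by
  classical
  let q : G →+ G ⧸ H := QuotientAddGroup.mk' H
  have hq : ∀ g : G, q g = 0 ↔ g ∈ H := fun g => QuotientAddGroup.eq_zero_iff g
  let br : Fin (D + 1) → Fin (D + 1) → G ⧸ H := fun a c => q (f ![l a, l c])
  have brs : ∀ a c, br c a = -br a c := fun a c => by
    change q (f ![l c, l a]) = -q (f ![l a, l c])
    rw [anti f (l a) (l c), map_neg]
  have br0 : ∀ a, br a a = 0 := fun a => by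
    change q (f ![l a, l a]) = 0
    rw [diag, map_zero]
  have hs' : ∀ c, ∑ a, br a c = 0 := fun c => by
    have h := (hq _).2 (hs c)
    rw [sumL, map_sum] at h
    exact h
  have hp' : ∀ a c, r a c → br a c = 0 := fun a c h => (hq _).2 (hp a c h)
  have hx' : ∀ a c, ¬ r a c → br a c = br a (if r 0 a then e else 0) +
      br (if r 0 c then e else 0) c -
      br (if r 0 c then e else 0) (if r 0 a then e else 0) := fun a c h => by
    have h2 := (hq _).2 (hx a c h)
    rw [subL, subR, subR, map_sub, map_sub, map_sub] at h2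
    change br a c - br a (if r 0 a then e else 0) - (br (if r 0 c then e else 0) c -
      br (if r 0 c then e else 0) (if r 0 a then e else 0)) = 0 at h2
    rw [sub_eq_zero, sub_eq_iff_eq_add] at h2
    rw [h2]
    abel
  let b : Fin (D + 1) → G ⧸ H := fun c => if r 0 c then br 0 e - br c e else br 0 c
  have hb0 : b 0 = 0 := by
    change (if r 0 0 then br 0 e - br 0 e else br 0 0) = 0
    rw [if_pos (hr.refl 0), sub_self]
  have key : ∀ a c, ¬ r a c → br a c = b c - b a := fun a c h => by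
    have h2 := hx' a c h
    change br a c = (if r 0 c then br 0 e - br c e else br 0 c) -
      (if r 0 a then br 0 e - br a e else br 0 a)
    by_cases ha : r 0 a
    · have hc : ¬ r 0 c := fun hc => h (hr.trans (hr.symm ha) hc)
      rw [if_pos ha, if_neg hc] at h2
      rw [if_pos ha, if_neg hc, h2]
      abel
    · by_cases hc : r 0 c
      · rw [if_neg ha, if_pos hc] at h2
        rw [if_neg ha, if_pos hc, h2, brs 0 a, brs c e, brs 0 e]
        abel
      · rw [if_neg ha, if_neg hc] at h2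
        rw [if_neg ha, if_neg hc, h2, brs 0 a, br0 0]
        abel
  have hb : ∀ k, sd r k • b k = ∑ a ∈ Finset.univ.filter (fun a => ¬ r a k), b a := fun k => by
    have h2 := hs' k
    rw [← Finset.sum_filter_add_sum_filter_not Finset.univ (fun a => r a k)] at h2
    rw [Finset.sum_eq_zero (fun a ha => hp' a k (Finset.mem_filter.1 ha).2), zero_add,
      Finset.sum_congr rfl (fun a ha => key a k (Finset.mem_filter.1 ha).2),
      Finset.sum_sub_distrib, Finset.sum_const, sub_eq_zero] at h2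
    exact h2
  have hk := lap_kill r hr h1 b 0 hb0 hb
  rw [← hq, map_nsmul]
  change _ • br i j = 0
  by_cases h : r i j
  · rw [hp' i j h, smul_zero]
  · rw [key i j h, smul_sub, hk, hk, sub_zero]

end P4a177q
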