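import Pool.Agent.Lib.P4a177q.KilQ
import Pool.Agent.Lib.P4a177q.ParQ
import Pool.Agent.Lib.P4a177q.SpnQ
import Pool.Agent.Lib.P4a177q.OvQ
import Pool.Agent.Lib.P4a177x.FinX

/-!
# The unramified elements of `K_2` of the coordinate ring of a curve `N * l_1 * … * l_D = 1` are
combinations of the `ξ_B`, up to torsion
-/

set_option autoImplicit false

namespace P4a177q

open P4a177h P4a177s P4a177x Function

variable {D : ℕ}

section Abs

variable {V G ι : Type*} [AddCommGroup V] [AddCommGroup G] [Fintype ι] (f : V [⋀^Fin 2]→ₗ[ℤ] G)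
  (C : AddSubgroup V) (l : Fin (D + 1) → V) (ξ : ι → G)

/-- The subgroup generated by the `ξ i` and the values with one constant entry. -/
def HX : AddSubgroup G := AddSubgroup.closure (Set.range ξ) ⊔ H2 f C l

/-- The elements of `HX` in explicit form. -/
theorem explicit {x : G} (hx : x ∈ HX f C l ξ) : ∃ (ν : ι → ℤ) (c : (Fin 1 → Fin (D + 1)) → V),
    (∀ J, c J ∈ C) ∧ x = ∑ i, ν i • ξ i + ∑ J, f (Fin.cons (c J) (fun a => l (J a))) := by
  classical
  obtain ⟨y, hy, z, hz, rfl⟩ := AddSubgroup.mem_sup.1 hx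
  obtain ⟨c, hc, hc'⟩ := explicit2 (m := 1) f C l hz
  have h1 : ∃ ν : ι → ℤ, y = ∑ i, ν i • ξ i := by
    refine AddSubgroup.closure_induction (p := fun y _ => ∃ ν : ι → ℤ, y = ∑ i, ν i • ξ i)
      ?_ ?_ ?_ ?_ hy
    · rintro _ ⟨i, rfl⟩
      refine ⟨fun j => if j = i then 1 else 0, ?_⟩
      simp only [ite_smul, one_smul, zero_smul]
      rw [Finset.sum_ite_eq' Finset.univ i, if_pos (Finset.mem_univ i)]
    · exact ⟨fun _ => 0, by simp⟩
    · rintro x y _ _ ⟨ν, rfl⟩ ⟨μ, rfl⟩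
      exact ⟨fun i => ν i + μ i, by simp only [add_smul, Finset.sum_add_distrib]⟩
    · rintro x _ ⟨ν, rfl⟩
      exact ⟨fun i => - ν i, by simp only [neg_smul, Finset.sum_neg_distrib]⟩
  obtain ⟨ν, rfl⟩ := h1
  exact ⟨ν, c, hc, by rw [hc']⟩

variable (hC : ∀ (v : Fin 2 → V) (i j : Fin 2), i ≠ j → v i ∈ C → v j ∈ C → f v = 0)

include hC

/-- The values on the subgroup generated by the `l i` and the constants. -/
theorem mem_HX {k : ℕ} (h : ∀ i j, k • f ![l i, l j] ∈ HX f C l ξ) (v : Fin 2 → V)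
    (hv : ∀ a, v a ∈ AddSubgroup.closure (Set.range l ∪ (C : Set V))) :
    k • f v ∈ HX f C l ξ := by
  have h1 := XiXAux.mem_of_closure (k • f.toMultilinearMap) (Set.range l ∪ (C : Set V))
    (HX f C l ξ) ?_ Finset.univ v (fun a _ => hv a) (fun a ha => absurd (Finset.mem_univ a) ha)
  · exact h1
  · intro u hu
    show k • f u ∈ HX f C l ξ
    by_cases hc : ∃ i, u i ∈ C
    · obtain ⟨i, hi⟩ := hc
      refine AddSubgroup.nsmul_mem _ ?_ k
      have h2 := XiXAux.at_mem (m := 1) f C l hC u i hi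
        (fun j => AddSubgroup.subset_closure (hu j))
      exact (le_sup_right : H2 f C l ≤ HX f C l ξ) h2
    · have h2 : ∀ a, ∃ i, l i = u a := fun a => (hu a).resolve_right fun h' => hc ⟨a, h'⟩
      obtain ⟨i, hi⟩ := h2 0
      obtain ⟨j, hj⟩ := h2 1
      have h3 : u = ![l i, l j] := by
        funext a
        refine Fin.cases ?_ (fun b => ?_) a
        · exact hi.symm
        · rw [Subsingleton.elim b 0]
          exact hj.symm
      rw [h3]
      exact h i j

/-- All the values. -/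
theorem mem_HX' {k M : ℕ} (h : ∀ i j, k • f ![l i, l j] ∈ HX f C l ξ)
    (hg : ∀ w : V, M • w ∈ AddSubgroup.closure (Set.range l ∪ (C : Set V))) (v : Fin 2 → V) :
    (k * M ^ 2) • f v ∈ HX f C l ξ := by
  have h1 := mem_HX f C l ξ hC h (fun i => M • v i) (fun a => hg (v a))
  have h2 : f (fun i => M • v i) = (M ^ 2) • f v := by
    have h3 := f.toMultilinearMap.map_smul_univ (fun _ => (M : ℤ)) v
    have h4 : (fun i => M • v i) = fun i => (M : ℤ) • v i := by
      funext i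
      rw [natCast_zsmul]
    rw [h4]
    refine Eq.trans h3 ?_
    rw [Finset.prod_const, Finset.card_univ, Fintype.card_fin, ← Nat.cast_pow, natCast_zsmul]
    rfl
  rw [h2, ← mul_smul] at h1
  exact h1

end Abs

/-- The pairs of the `l i`. -/
theorem pairs_abs {V G ι : Type*} [AddCommGroup V] [AddCommGroup G] (f : V [⋀^Fin 2]→ₗ[ℤ] G)
    (C : AddSubgroup V) (l : Fin (D + 1) → V) (ξ : ι → G)
    (r : Fin (D + 1) → Fin (D + 1) → Prop) [DecidableRel r] (hr : Equivalence r)
    (h1 : ∀ k, 1 ≤ sd r k) (e : Fin (D + 1)) (he : ¬ r e 0) (hs : ∑ k, l k ∈ C)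
    (hp : ∀ i j, r i j → f ![l i, l j] ∈ H2 f C l)
    (hx : ∀ i j, ¬ r i j → f ![l i - l (if r 0 j then e else 0),
      l j - l (if r 0 i then e else 0)] ∈ AddSubgroup.closure (Set.range ξ) ⊔ H2 f C l)
    (i j : Fin (D + 1)) :
    (D.factorial * (D + 1).factorial) • f ![l i, l j] ∈ HX f C l ξ := by
  have hle : H2 f C l ≤ HX f C l ξ := le_sup_right
  refine spn r hr h1 f l _ e he (fun j => ?_) (fun i j hij => hle (hp i j hij)) hx i j
  refine hle (AddSubgroup.subset_closure ⟨_, fun _ => j, hs, ?_⟩)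
  congr 1
  funext a
  refine Fin.cases rfl (fun b => ?_) a
  rw [Subsingleton.elim b 0]
  rfl

theorem pairs_R {R : Type} [CommRing R] [Algebra ℚ R] {G : Type*} [AddCommGroup G]
    (S : Alt R 2 G) (l : Fin (D + 1) → Rˣ) {ι : Type*} (ξ : ι → G)
    (r : Fin (D + 1) → Fin (D + 1) → Prop) [DecidableRel r] (hr : Equivalence r)
    (h1 : ∀ k, 1 ≤ sd r k) (e : Fin (D + 1)) (he : ¬ r e 0)
    (hs : ∑ k, Additive.ofMul (l k) ∈ CC R)
    (hp : ∀ i j, r i j → S.f ![Additive.ofMul (l i), Additive.ofMul (l j)] ∈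
      H2 S.f (CC R) (fun k => Additive.ofMul (l k)))
    (hx : ∀ i j, ¬ r i j → S.f ![Additive.ofMul (l i) - Additive.ofMul (l (if r 0 j then e else 0)),
      Additive.ofMul (l j) - Additive.ofMul (l (if r 0 i then e else 0))] ∈
        AddSubgroup.closure (Set.range ξ) ⊔ H2 S.f (CC R) (fun k => Additive.ofMul (l k)))
    (i j : Fin (D + 1)) :
    (D.factorial * (D + 1).factorial) • S.f ![Additive.ofMul (l i), Additive.ofMul (l j)] ∈
      HX S.f (CC R) (fun k => Additive.ofMul (l k)) ξ :=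
  pairs_abs S.f (CC R) (fun k => Additive.ofMul (l k)) ξ r hr h1 e he hs hp hx i j

theorem unit_abs {R : Type} [CommRing R] [Algebra ℚ R] (l : Fin (D + 1) → Rˣ) (M : ℕ)
    (h : ∀ w : Rˣ, ∃ (t : ℚˣ) (κ : Fin (D + 1) → ℤ), w ^ M = P4a177w.cs R t * ∏ k, l k ^ κ k)
    (w : Additive Rˣ) : M • w ∈ AddSubgroup.closure
      (Set.range (fun k => Additive.ofMul (l k)) ∪ (CC R : Set (Additive Rˣ))) := by
  obtain ⟨t, κ, h⟩ := h w.toMul
  have h1 : M • w = Additive.ofMul (w.toMul ^ M) := by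
    rw [ofMul_pow, ofMul_toMul]
  have h2 : Additive.ofMul (P4a177w.cs R t) ∈ (CC R : Set (Additive Rˣ)) :=
    ⟨Additive.ofMul t, rfl⟩
  rw [h1, h, ofMul_mul, ofMul_prod]
  refine add_mem (AddSubgroup.subset_closure (Or.inr h2)) (sum_mem fun k _ => ?_)
  rw [ofMul_zpow]
  have h3 : Additive.ofMul (l k) ∈ AddSubgroup.closure
      (Set.range (fun k => Additive.ofMul (l k)) ∪ (CC R : Set (Additive Rˣ))) :=
    AddSubgroup.subset_closure (Or.inl ⟨k, rfl⟩)
  exact AddSubgroup.zsmul_mem _ h3 _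

theorem in_HX {R : Type} [CommRing R] [Algebra ℚ R] {G : Type*} [AddCommGroup G] (S : Alt R 2 G)
    (l : Fin (D + 1) → Rˣ) {ι : Type*} [Fintype ι] (z : ι → Fin 2 → Rˣ) {k M : ℕ}
    (h1 : ∀ i j, k • S.f ![Additive.ofMul (l i), Additive.ofMul (l j)] ∈
      HX S.f (CC R) (fun k => Additive.ofMul (l k))
        (fun B => S.f (fun t => Additive.ofMul (z B t))))
    (h2 : ∀ w : Additive Rˣ, M • w ∈ AddSubgroup.closure
      (Set.range (fun k => Additive.ofMul (l k)) ∪ (CC R : Set (Additive Rˣ))))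
    (π : MilnorK 2 R →+ G)
    (hS : ∀ a : Fin 2 → Rˣ, S.f (fun k => Additive.ofMul (a k)) = π (symb a))
    (η : MilnorK 2 R) :
    (k * M ^ 2) • π η ∈ HX S.f (CC R) (fun k => Additive.ofMul (l k))
        (fun B => S.f (fun t => Additive.ofMul (z B t))) := by
  have h3 : ∀ a : Fin 2 → Rˣ, (k * M ^ 2) • π (symb a) ∈
      HX S.f (CC R) (fun k => Additive.ofMul (l k))
        (fun B => S.f (fun t => Additive.ofMul (z B t))) := by
    intro a
    have h := mem_HX' S.f (CC R) (fun k => Additive.ofMul (l k))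
      (fun B => S.f (fun t => Additive.ofMul (z B t)))
      (fun v i j hij hi hj => const_const S v i j hij hi hj) h1 h2
      (fun k => Additive.ofMul (a k))
    rw [hS] at h
    exact h
  have h4 : ∀ y : FreeAbelianGroup (Fin 2 → Rˣ),
      (k * M ^ 2) • π ((QuotientAddGroup.mk' _) y) ∈
      HX S.f (CC R) (fun k => Additive.ofMul (l k))
        (fun B => S.f (fun t => Additive.ofMul (z B t))) := by
    intro y
    induction y using FreeAbelianGroup.induction_on with
    | zero =>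
      rw [map_zero, map_zero, smul_zero]
      exact zero_mem _
    | of a => exact h3 a
    | neg a ih =>
      rw [map_neg, map_neg, smul_neg]
      exact neg_mem (h3 a)
    | add x y hx hy =>
      rw [map_add, map_add, smul_add]
      exact add_mem hx hy
  induction η using QuotientAddGroup.induction_on with
  | H y => exact h4 y

variable (A : Arr 2 (D + 1)) (N : ℕ)

theorem unit_mem (hN : 1 ≤ N) (w : Additive (A.CoordRing N)ˣ) :
    (D + 1).factorial • w ∈ AddSubgroup.closure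
      (Set.range (fun k => Additive.ofMul (lu A N k)) ∪
        (CC (A.CoordRing N) : Set (Additive (A.CoordRing N)ˣ))) :=
  unit_abs (lu A N) _ (fun w => unit_pow A hN w) w

theorem pairs_mem (hN : 1 ≤ N) {G : Type*} [AddCommGroup G]
    (S : Alt (A.CoordRing N) 2 G) (i j : Fin (D + 1)) :
    (D.factorial * (D + 1).factorial) •
      S.f ![Additive.ofMul (lu A N i), Additive.ofMul (lu A N j)] ∈
      HX S.f (CC (A.CoordRing N)) (fun k => Additive.ofMul (lu A N k))
        (fun B : A.Idx => S.f (fun t => Additive.ofMul (Arr.z (A.coord_on N) B t))) := by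
  have hC : ∀ (v : Fin 2 → Additive (A.CoordRing N)ˣ) (i j : Fin 2), i ≠ j →
      v i ∈ CC (A.CoordRing N) → v j ∈ CC (A.CoordRing N) → S.f v = 0 :=
    fun v i j hij hi hj => const_const S v i j hij hi hj
  obtain ⟨e, he, hx⟩ := exists_e A N S hC
  exact pairs_R S (lu A N)
    (fun B : A.Idx => S.f (fun t => Additive.ofMul (Arr.z (A.coord_on N) B t)))
    (fun i k => dt A i k = 0) (dt_equiv A) (fun k => deg_pos A k) e he (sum_mem_CC A N hN)
    (fun i j hij => par_H2 A N S hC hij) hx i j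

theorem spans_abs {M₁ G V ι : Type*} [AddCommGroup M₁] [AddCommGroup G] [AddCommGroup V]
    [Fintype ι] (π : M₁ →+ G) (f : V [⋀^Fin 2]→ₗ[ℤ] G) (C : AddSubgroup V)
    (l : Fin (D + 1) → V) (k : ℕ) (η : M₁) (ξ : ι → M₁) (z : ι → Fin 2 → V)
    (hz : ∀ B, π (ξ B) = f (z B)) (h : k • π η ∈ HX f C l (fun B => f (z B))) :
    ∃ (ν : ι → ℤ) (c : (Fin 1 → Fin (D + 1)) → V), (∀ J, c J ∈ C) ∧
      π (k • η - ∑ B, ν B • ξ B) = ∑ J, f (Fin.cons (c J) (fun a => l (J a))) := by
  obtain ⟨ν, c, hc, h2⟩ := explicit f C l _ h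
  refine ⟨ν, c, hc, ?_⟩
  rw [map_sub, map_nsmul, h2, map_sum]
  simp only [map_zsmul, hz]
  abel

theorem spans_aux (hN : 1 ≤ N) (η : MilnorK 2 (A.CoordRing N))
    (hη : P4a177w.UnramifiedOverQ η)
    {S : Alt (A.CoordRing N) 2 (MilnorK 2 (A.CoordRing N) ⧸ Tor 2 (A.CoordRing N))}
    (hS : ∀ a : Fin 2 → (A.CoordRing N)ˣ,
      S.f (fun k => Additive.ofMul (a k)) = QuotientAddGroup.mk (symb a)) {k : ℕ}
    (hHX : k • (QuotientAddGroup.mk' (Tor 2 (A.CoordRing N))) η ∈
      HX S.f (CC (A.CoordRing N)) (fun k => Additive.ofMul (lu A N k))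
        (fun B : A.Idx => S.f (fun t => Additive.ofMul (Arr.z (A.coord_on N) B t)))) :
    ∃ c : A.Idx → ℤ, k • η - ∑ B, c B • A.xi N B ∈ Tor 2 (A.CoordRing N) := by
  have hz1 : ∀ B : A.Idx, QuotientAddGroup.mk' (Tor 2 (A.CoordRing N)) (A.xi N B) =
      S.f (fun t => Additive.ofMul (Arr.z (A.coord_on N) B t)) := fun B => by
    rw [hS]
    rfl
  have hX := spans_abs (QuotientAddGroup.mk' (Tor 2 (A.CoordRing N))) S.f
    (CC (A.CoordRing N)) (fun k => Additive.ofMul (lu A N k)) k η (fun B => A.xi N B)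
    (fun B t => Additive.ofMul (Arr.z (A.coord_on N) B t)) hz1 hHX
  refine Exists.elim hX fun ν hν => ?_
  refine Exists.elim hν fun c hcc => ?_
  refine And.elim (fun hc h2 => ?_) hcc
  choose q hq using hc
  have e3 : QuotientAddGroup.mk' (Tor 2 (A.CoordRing N)) (∑ J, symb (Fin.cons
      (P4a177w.cs (A.CoordRing N) (q J).toMul) (fun b => lu A N (J b)))) =
      ∑ J, S.f (Fin.cons (c J) (fun a => Additive.ofMul (lu A N (J a)))) := by
    rw [map_sum]
    refine Finset.sum_congr rfl fun J _ => ?_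
    have h := hS (Fin.cons (P4a177w.cs (A.CoordRing N) (q J).toMul) (fun b => lu A N (J b)))
    rw [ofMul_cons] at h
    have h' : Additive.ofMul (P4a177w.cs (A.CoordRing N) (q J).toMul) = c J := hq J
    rw [h'] at h
    exact h.symm
  have h3 : k • η - ∑ B : A.Idx, ν B • A.xi N B -
      ∑ J, symb (Fin.cons (P4a177w.cs (A.CoordRing N) (q J).toMul) (fun b => lu A N (J b))) ∈
      Tor 2 (A.CoordRing N) := by
    rw [← QuotientAddGroup.eq_zero_iff]
    have e : QuotientAddGroup.mk' (Tor 2 (A.CoordRing N))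
        (k • η - ∑ B : A.Idx, ν B • A.xi N B -
      ∑ J, symb (Fin.cons (P4a177w.cs (A.CoordRing N) (q J).toMul) (fun b => lu A N (J b)))) =
        0 := by
      rw [map_sub, e3, h2, sub_self]
    exact e
  have h4 : ∑ J, symb (Fin.cons (P4a177w.cs (A.CoordRing N) (q J).toMul) (fun b => lu A N (J b)))
      ∈ Tor 2 (A.CoordRing N) := by
    refine kill_zeta A hN hS (fun J => (q J).toMul) ?_
    intro K _ _ _ v T hv hT
    exact T_zero (map (algebraMap (A.CoordRing N) K)) T η _ ν (fun B => A.xi N B)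
      k (hT _ (hη K v hv)) (fun B => hT _ (xi_over A hN B K v hv))
      (map_tor (algebraMap (A.CoordRing N) K) h3)
  refine ⟨ν, ?_⟩
  have h5 := add_mem h3 h4
  rw [sub_add_cancel] at h5
  exact h5

theorem num (D : ℕ) : (D + 1) * (D.factorial * (D + 1).factorial * (D + 1).factorial ^ 2) =
    ((D + 1).factorial ^ 2) ^ 2 := by
  rw [Nat.factorial_succ]
  ring

theorem mul_tor {ι : Type*} [Fintype ι] {G : Type*} [AddCommGroup G] {T : AddSubgroup G} {η : G}
    {ξ : ι → G} {k n M : ℕ} (hM : n * k = M) (h : ∃ c : ι → ℤ, k • η - ∑ B, c B • ξ B ∈ T) :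
    ∃ c : ι → ℤ, M • η - ∑ B, c B • ξ B ∈ T := by
  obtain ⟨c, hc⟩ := h
  refine ⟨fun B => n • c B, ?_⟩
  have h1 : M • η - ∑ B, (n • c B) • ξ B = n • (k • η - ∑ B, c B • ξ B) := by
    rw [← hM, mul_smul, smul_sub, Finset.smul_sum]
    simp only [smul_assoc]
  rw [h1]
  exact AddSubgroup.nsmul_mem _ hc n

theorem spans (hN : 1 ≤ N) (η : MilnorK 2 (A.CoordRing N))
    (hη : P4a177w.UnramifiedOverQ η) :
    ∃ c : A.Idx → ℤ, (((D + 1).factorial ^ 2) ^ 2) • η - ∑ B, c B • A.xi N B ∈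
      Tor 2 (A.CoordRing N) := by
  obtain ⟨S, hS⟩ := exists_uni 2 (A.CoordRing N)
  have h1 := pairs_mem A N hN S
  have h2 := unit_mem A N hN
  have h3 := num D
  revert h1 h2 h3
  generalize D.factorial * (D + 1).factorial = k
  generalize ((D + 1).factorial ^ 2) ^ 2 = M'
  generalize (D + 1).factorial = M
  intro h1 h2 h3
  refine mul_tor h3 (spans_aux A N hN η hη hS ?_)
  exact in_HX S (lu A N) (fun B : A.Idx => Arr.z (A.coord_on N) B) h1 h2
    (QuotientAddGroup.mk' (Tor 2 (A.CoordRing N))) hS η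

/-- The exact symbol part for all arrangements of lines without triple points. -/
theorem spannedBy (A : Arr 2 D) {N : ℕ} (hN : 1 ≤ N)
    {η : MilnorK 2 (A.CoordRing N)} (hη : P4a177w.UnramifiedOverQ η) :
    P4a177u.SpannedBy (A.xi N) ((D.factorial ^ 2) ^ 2) η := by
  obtain ⟨p₀, hp₀⟩ := A.spans
  obtain ⟨D', rfl⟩ : ∃ D', D = D' + 1 :=
    Nat.exists_eq_succ_of_ne_zero (fun h0 => by subst h0; exact (p₀ 0).elim0)
  exact spannedBy_of_tor (spans A N hN η hη)

end P4a177q
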