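import Pool.Agent.Lib.P4a177q.PsiQ
import Mathlib.RingTheory.Polynomial.Resultant.Basic

/-!
# MODULE P4a177q.NrmQ: the norm from the coordinate ring to `ℚ[ℓ]`

PROOF. `Y k = (P k).φ (A.coord N 1)`. The image of `eqY A N q` under `psi` has the roots `Y k` (`pl_ev`, `ev_eqY`), which are different: if `Y k = Y k'` with `k ≠ k'` then
`(P k).φ (l_k) = (P k').φ (l_k)` (both are `a k 0 z⁻¹ + be k * Y k + c k`, by `hl`), of order `deg A k ≥ 1` at `P k` (`hk`) and of order `-1` or `0` at `P k'` (`hi`, `hp`): values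
`exp (- deg)` and `exp 1`, `1`. The degree is `D + 1` and the leading coefficient the constant `κ = N ∏ be i ≠ 0`, so
`(eqY A N q).map psi = C κ * ∏_k (X - C (Y k))` (`Polynomial.C_leadingCoeff_mul_prod_multiset_X_sub_C`, or: the product divides it,
`Polynomial.prod_X_sub_C_dvd..`/`Finset.prod_dvd_of_coprime`, compare degrees). For `g = ev G` put `R = resultant (eqY) G (D + 1) n`, `n = natDegree G`: `Polynomial.resultant_map_map` and
`Polynomial.resultant_eq_prod_eval` (or `resultant_prod_left`, `resultant_X_sub_C_left`) give `psi R = κ ^ n * ∏_k eval (Y k) (G.map psi) = κ ^ n * ∏_k (P k).φ g` (`pl_ev`). Multiply `R` by the constant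
`κ⁻¹ ^ n`.
-/

set_option autoImplicit false

namespace P4a177q

open P4a177h P4a177s P4a177x Function Polynomial

namespace NrmQAux

open UniXAux WithZero

variable {D : ℕ} {A : Arr 2 (D + 1)} {N : ℕ} {q : ℤ}

/-- The linear form in the coordinates `ℓ`, `y`. -/
theorem lu_eq (i : Fin (D + 1)) : (lu A N i : A.CoordRing N) =
    (A.a i 0 : A.CoordRing N) * (A.coord N 0 + (q : A.CoordRing N) * A.coord N 1) +
      (be A q i : A.CoordRing N) * A.coord N 1 + (A.c i : A.CoordRing N) := by
  rw [Arr.L_val]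
  unfold Arr.form be
  rw [Fin.sum_univ_two]
  push_cast
  ring

theorem pl_lu {k : Fin (D + 1)} (P : Pl A N q k) (i : Fin (D + 1)) : P.φ (lu A N i) =
    (A.a i 0 : LaurentSeries ℚ) * HahnSeries.single (-1 : ℤ) 1 +
      (be A q i : LaurentSeries ℚ) * P.φ (A.coord N 1) + (A.c i : LaurentSeries ℚ) := by
  rw [lu_eq (q := q) i, map_add, map_add, map_mul, map_mul, P.hl, map_intCast, map_intCast,
    map_intCast]

theorem une {k : Fin (D + 1)} (P : Pl A N q k) (i : Fin (D + 1)) :
    PowerSeries.constantCoeff (P.U i) ≠ 0 := by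
  rw [P.hu i]
  exact (P.u i).ne_zero

theorem vls_k {k : Fin (D + 1)} (P : Pl A N q k) :
    vls ℚ (P.φ (lu A N k)) = exp (-(deg A k : ℤ)) := by
  rw [P.hk]
  exact vls_mul_unit _ _ (une P k)

theorem vls_ne {k i : Fin (D + 1)} (P : Pl A N q k) (h : i ≠ k) :
    (1 : WithZero (Multiplicative ℤ)) ≤ vls ℚ (P.φ (lu A N i)) := by
  by_cases hd : dt A i k = 0
  · rw [P.hp i h hd, vls_coe_unit _ (une P i)]
  · rw [P.hi i hd, vls_mul_unit _ _ (une P i), neg_neg]
    rw [← exp_zero]
    exact exp_le_exp.2 (by norm_num)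

theorem Y_injective (P : ∀ k, Pl A N q k) : Injective fun k => (P k).φ (A.coord N 1) := by
  intro k k' h
  by_contra hk
  have h1 : (P k).φ (lu A N k) = (P k').φ (lu A N k) := by
    rw [pl_lu (P k) k, pl_lu (P k') k]
    simp only at h
    rw [h]
  have h2 := vls_ne (P k') hk
  rw [← h1, vls_k (P k), ← exp_zero] at h2
  have h3 := exp_le_exp.1 h2
  have h4 := deg_pos A k
  omega

theorem eval_Y (k : Fin (D + 1)) (P : Pl A N q k) :
    eval (P.φ (A.coord N 1)) ((eqY A N q).map psi) = 0 := by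
  rw [← pl_ev P, ev_eqY, map_zero]

end NrmQAux

open NrmQAux in
theorem norm_mem {D : ℕ} (A : Arr 2 (D + 1)) {N : ℕ} (hN : 1 ≤ N) {q : ℤ}
    (hq : ∀ k, A.a k 1 - q * A.a k 0 ≠ 0) (P : ∀ k, Pl A N q k) (g : A.CoordRing N) :
    ∃ R : ℚ[X], ∏ k, (P k).φ g = psi R := by
  classical
  obtain ⟨G, hG⟩ := exists_rep A N q g
  obtain ⟨κ, hκ⟩ : ∃ κ : ℚ, κ = (N : ℚ) * ∏ i, (be A q i : ℚ) := ⟨_, rfl⟩
  have hκ0 : κ ≠ 0 := by
    rw [hκ]
    refine mul_ne_zero (by exact_mod_cast (by omega : N ≠ 0)) ?_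
    rw [Finset.prod_ne_zero_iff]
    intro i _
    exact_mod_cast hq i
  have hlead : (eqY A N q).leadingCoeff = C κ := by
    rw [hκ]
    exact eqY_lead A N q hN hq
  have hdeg := eqY_degree A N q hN hq
  have hpsi0 : psi (C κ) ≠ 0 := by
    intro h
    have := psi_injective (h.trans (map_zero psi).symm)
    exact hκ0 (C_eq_zero.1 this)
  -- the degree and the leading coefficient of the image
  have hmd : ((eqY A N q).map psi).natDegree = D + 1 := by
    rw [natDegree_map_eq_of_injective psi_injective, hdeg]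
  have hml : ((eqY A N q).map psi).leadingCoeff = psi (C κ) := by
    rw [leadingCoeff_map_of_injective psi_injective, hlead]
  -- the product of the linear factors
  have hdvd : (∏ k, (X - C ((P k).φ (A.coord N 1)))) ∣ (eqY A N q).map psi := by
    apply Finset.prod_dvd_of_coprime
    · intro i _ j _ hij
      exact isCoprime_X_sub_C_of_isUnit_sub
        (isUnit_iff_ne_zero.2 (sub_ne_zero.2 ((Y_injective P).ne hij)))
    · intro i _
      rw [dvd_iff_isRoot]
      exact eval_Y i (P i)
  have hmon : (∏ k, (X - C ((P k).φ (A.coord N 1)))).Monic :=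
    monic_prod_of_monic _ _ fun i _ => monic_X_sub_C _
  have hpd : (∏ k, (X - C ((P k).φ (A.coord N 1)))).natDegree = D + 1 := by
    rw [natDegree_prod_of_monic _ _ fun i _ => monic_X_sub_C _]
    simp
  have hfac : (eqY A N q).map psi = C (psi (C κ)) * ∏ k, (X - C ((P k).φ (A.coord N 1))) := by
    obtain ⟨W, hW⟩ := hdvd
    have hW0 : W ≠ 0 := by
      rintro rfl
      rw [mul_zero] at hW
      rw [hW, leadingCoeff_zero] at hml
      exact hpsi0 hml.symm
    have h1 : ((eqY A N q).map psi).natDegree = D + 1 + W.natDegree := by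
      rw [hW, hmon.natDegree_mul' hW0, hpd]
    have h2 : W.natDegree = 0 := by omega
    obtain ⟨w, rfl⟩ := natDegree_eq_zero.1 h2
    have h3 : w = psi (C κ) := by
      rw [← hml, hW, leadingCoeff_monic_mul hmon, leadingCoeff_C]
    rw [hW, h3, mul_comm]
  -- the resultant
  obtain ⟨n, hn⟩ : ∃ n : ℕ, n = G.natDegree := ⟨_, rfl⟩
  have hGn : (G.map psi).natDegree ≤ n := by
    rw [hn]
    exact natDegree_map_le
  have hres : psi (resultant (eqY A N q) G (D + 1) n) =
      psi (C κ) ^ n * ∏ k, (P k).φ g := by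
    rw [← resultant_map_map, hfac, resultant_C_mul_left]
    congr 1
    have h := resultant_prod_left (Finset.univ : Finset (Fin (D + 1)))
      (fun k => X - C ((P k).φ (A.coord N 1))) (G.map psi) n (by simp) hGn
    rw [hpd] at h
    rw [h]
    refine Finset.prod_congr rfl fun k _ => ?_
    rw [natDegree_X_sub_C, resultant_X_sub_C_left _ _ _ hGn, ← pl_ev (P k), hG]
  refine ⟨C (κ⁻¹) ^ n * resultant (eqY A N q) G (D + 1) n, ?_⟩
  rw [map_mul, hres, map_pow, ← mul_assoc, ← mul_pow, ← map_mul, ← C_mul, inv_mul_cancel₀ hκ0,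
    C_1, map_one, one_pow, one_mul]

end P4a177q
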