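import Pool.Agent.Lib.P4a177q.DtQ

/-!
# MODULE P4a177q.PsiQ: the embedding of `ℚ[ℓ]` into the Laurent series, and the equation over `ℚ[ℓ]`

PROOFS. `vls_psi`: the leading term `c X ^ n` of `R` has the value `exp n`, the other terms a smaller one (`LaurentSeries.valuation_single_zpow`,
`P4a177x.UniXAux.vls_z`, `Valuation.map_add_eq_of_lt_left`, induction or `Polynomial.as_sum_range`); or: `psi R = single (-n) 1 * (reverse of R as a power
series)`. `eqY_eval`: `eqY` is mapped to `N ∏_i (a i 0 x + beta i y + c i) - 1` and `a i 0 x + beta i y + c i = l_i` for `x = x_0 + q x_1`, `y = x_1`, so it is `0` by `Arr.coord_on`.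
`eqY_degree`, `eqY_lead`: a product of `D + 1` polynomials of degree `1`. `exists_rep`: `MvPolynomial.induction_on`, or the subring of the elements of this form contains the constants,
`x_1` and `x_0 = ℓ - q x_1` (`ev` is a ring homomorphism, so: its range is everything; `Ideal.Quotient.mk_surjective`, `MvPolynomial.induction_on`).
`pl_ev`: two ring homomorphisms on `ℚ[X][Y]` which agree on `X`, `Y` (there is only one homomorphism from `ℚ`).
-/

set_option autoImplicit false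

namespace P4a177q

open P4a177h P4a177s P4a177x Function Polynomial

noncomputable section

/-- The homomorphism `ℚ[X] → ℚ((z))`, `X ↦ z⁻¹`. -/
def psi : ℚ[X] →+* LaurentSeries ℚ :=
  eval₂RingHom (HahnSeries.C : ℚ →+* LaurentSeries ℚ) (HahnSeries.single (-1 : ℤ) 1)

namespace PsiQAux

open WithZero

theorem vls_const (t : ℚ) (ht : t ≠ 0) : vls ℚ (HahnSeries.C t : LaurentSeries ℚ) = 1 := by
  rw [← PowerSeries.coe_C]
  refine UniXAux.vls_coe_unit _ ?_
  simpa using ht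

theorem vls_term (c : ℚ) (i : ℕ) (hc : c ≠ 0) :
    vls ℚ (HahnSeries.C c * (HahnSeries.single (-1 : ℤ) (1 : ℚ)) ^ i) = exp (i : ℤ) := by
  rw [map_mul, map_pow, vls_const c hc, UniXAux.vls_z, neg_neg, one_mul, ← exp_nsmul]
  simp

theorem vls_term_lt (c : ℚ) {i n : ℕ} (hi : i < n) :
    vls ℚ (HahnSeries.C c * (HahnSeries.single (-1 : ℤ) (1 : ℚ)) ^ i) < exp (n : ℤ) := by
  by_cases hc : c = 0
  · subst hc
    rw [map_zero, zero_mul, map_zero]
    exact zero_lt_iff.2 exp_ne_zero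
  · rw [vls_term c i hc, exp_lt_exp]
    exact_mod_cast hi

theorem psi_eq (R : ℚ[X]) : psi R = ∑ i ∈ Finset.range (R.natDegree + 1),
    HahnSeries.C (R.coeff i) * (HahnSeries.single (-1 : ℤ) (1 : ℚ)) ^ i := by
  rw [psi, coe_eval₂RingHom, eval₂_eq_sum_range]

end PsiQAux

theorem vls_psi (R : ℚ[X]) (hR : R ≠ 0) : vls ℚ (psi R) = WithZero.exp (R.natDegree : ℤ) := by
  rw [PsiQAux.psi_eq, Finset.sum_range_succ, add_comm]
  have h1 : vls ℚ (HahnSeries.C (R.coeff R.natDegree) *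
      (HahnSeries.single (-1 : ℤ) (1 : ℚ)) ^ R.natDegree) = WithZero.exp (R.natDegree : ℤ) :=
    PsiQAux.vls_term _ _ (by simpa using hR)
  have h2 : vls ℚ (∑ i ∈ Finset.range R.natDegree,
      HahnSeries.C (R.coeff i) * (HahnSeries.single (-1 : ℤ) (1 : ℚ)) ^ i) <
      WithZero.exp (R.natDegree : ℤ) :=
    Valuation.map_sum_lt _ WithZero.exp_ne_zero fun i hi =>
      PsiQAux.vls_term_lt _ (Finset.mem_range.1 hi)
  rw [Valuation.map_add_eq_of_lt_left _ (by rw [h1]; exact h2), h1]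

theorem psi_injective : Injective psi := by
  rw [injective_iff_map_eq_zero]
  intro R h
  by_contra hR
  have h1 := vls_psi R hR
  rw [h, map_zero] at h1
  exact WithZero.exp_ne_zero h1.symm

variable {D : ℕ} (A : Arr 2 (D + 1)) (N : ℕ) (q : ℤ)

/-- The coefficient of `y = x_1` in `l_k`, in the coordinates `ℓ`, `y`. -/
def be (k : Fin (D + 1)) : ℤ := A.a k 1 - q * A.a k 0

/-- The equation of the curve in the coordinates `ℓ`, `y`, as a polynomial in `y` over `ℚ[ℓ]`. -/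
def eqY : ℚ[X][X] :=
  C (C (N : ℚ)) * ∏ i, (C (C (A.a i 0 : ℚ) * X + C (A.c i : ℚ)) + C (C (be A q i : ℚ)) * X) - 1

/-- The homomorphism `ℚ[X][Y] → ℚ[curve]`, `X ↦ ℓ`, `Y ↦ x_1`. -/
def ev : ℚ[X][X] →+* A.CoordRing N :=
  eval₂RingHom (eval₂RingHom (algebraMap ℚ (A.CoordRing N))
    (A.coord N 0 + (q : A.CoordRing N) * A.coord N 1)) (A.coord N 1)

namespace PsiQAux

theorem ev_X : ev A N q X = A.coord N 1 := by
  rw [ev, coe_eval₂RingHom, eval₂_X]

theorem ev_C_X : ev A N q (C X) = A.coord N 0 + (q : A.CoordRing N) * A.coord N 1 := by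
  rw [ev, coe_eval₂RingHom, eval₂_C, coe_eval₂RingHom, eval₂_X]

theorem ev_C_C (t : ℚ) : ev A N q (C (C t)) = algebraMap ℚ (A.CoordRing N) t := by
  rw [ev, coe_eval₂RingHom, eval₂_C, coe_eval₂RingHom, eval₂_C]

theorem ev_fac (i : Fin (D + 1)) :
    ev A N q (C (C (A.a i 0 : ℚ) * X + C (A.c i : ℚ)) + C (C (be A q i : ℚ)) * X) =
      A.form i (A.coord N) := by
  rw [map_add, map_add C, map_mul C, map_add, map_mul, map_mul, ev_C_C, ev_C_C, ev_C_C, ev_C_X,
    ev_X, map_intCast, map_intCast, map_intCast, be, Arr.form, Fin.sum_univ_two]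
  push_cast
  ring

end PsiQAux

theorem exists_rep (g : A.CoordRing N) : ∃ G : ℚ[X][X], ev A N q G = g := by
  obtain ⟨P, rfl⟩ := Ideal.Quotient.mk_surjective g
  induction P using MvPolynomial.induction_on with
  | C t => exact ⟨C (C t), PsiQAux.ev_C_C A N q t⟩
  | add P Q hP hQ =>
    obtain ⟨G, hG⟩ := hP
    obtain ⟨H, hH⟩ := hQ
    exact ⟨G + H, by rw [map_add, map_add, hG, hH]⟩
  | mul_X P i hP =>
    obtain ⟨G, hG⟩ := hP
    rw [map_mul, ← hG]
    change ∃ K : ℚ[X][X], ev A N q K = ev A N q G * A.coord N i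
    match i with
    | 0 =>
      refine ⟨G * (C X - (q : ℚ[X][X]) * X), ?_⟩
      rw [map_mul, map_sub, map_mul, map_intCast, PsiQAux.ev_C_X, PsiQAux.ev_X,
        add_sub_cancel_right]
    | 1 =>
      exact ⟨G * X, by rw [map_mul, PsiQAux.ev_X]⟩

theorem ev_eqY : ev A N q (eqY A N q) = 0 := by
  have h : (N : A.CoordRing N) * ∏ k, A.form k (A.coord N) = 1 := A.coord_on N
  rw [eqY, map_sub, map_mul, map_prod, map_one, PsiQAux.ev_C_C, map_natCast,
    Finset.prod_congr rfl fun i _ => PsiQAux.ev_fac A N q i, h, sub_self]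

namespace PsiQAux

variable {A q}

theorem be_ne (hq : ∀ k, A.a k 1 - q * A.a k 0 ≠ 0) (i : Fin (D + 1)) :
    (C (be A q i : ℚ) : ℚ[X]) ≠ 0 := by
  rw [Ne, C_eq_zero]
  exact_mod_cast hq i

theorem fac_degree (hq : ∀ k, A.a k 1 - q * A.a k 0 ≠ 0) (i : Fin (D + 1)) :
    (C (C (A.a i 0 : ℚ) * X + C (A.c i : ℚ)) + C (C (be A q i : ℚ)) * X :
      ℚ[X][X]).natDegree = 1 := by
  rw [add_comm]
  exact natDegree_linear (be_ne hq i)

theorem fac_lead (hq : ∀ k, A.a k 1 - q * A.a k 0 ≠ 0) (i : Fin (D + 1)) :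
    (C (C (A.a i 0 : ℚ) * X + C (A.c i : ℚ)) + C (C (be A q i : ℚ)) * X :
      ℚ[X][X]).leadingCoeff = C (be A q i : ℚ) := by
  rw [add_comm]
  exact leadingCoeff_linear (be_ne hq i)

theorem fac_ne (hq : ∀ k, A.a k 1 - q * A.a k 0 ≠ 0) (i : Fin (D + 1)) :
    (C (C (A.a i 0 : ℚ) * X + C (A.c i : ℚ)) + C (C (be A q i : ℚ)) * X : ℚ[X][X]) ≠ 0 := by
  intro h
  have h1 := fac_degree hq i
  rw [h, natDegree_zero] at h1
  exact zero_ne_one h1

theorem N_ne {N : ℕ} (hN : 1 ≤ N) : (C (N : ℚ) : ℚ[X]) ≠ 0 := by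
  rw [Ne, C_eq_zero]
  exact_mod_cast Nat.one_le_iff_ne_zero.1 hN

theorem main_degree {N : ℕ} (hN : 1 ≤ N) (hq : ∀ k, A.a k 1 - q * A.a k 0 ≠ 0) :
    (C (C (N : ℚ)) * ∏ i, (C (C (A.a i 0 : ℚ) * X + C (A.c i : ℚ)) + C (C (be A q i : ℚ)) * X) :
      ℚ[X][X]).natDegree = D + 1 := by
  rw [natDegree_C_mul (N_ne hN), natDegree_prod _ _ fun i _ => fac_ne hq i,
    Finset.sum_congr rfl fun i _ => fac_degree hq i]
  simp

theorem one_lt {N : ℕ} (hN : 1 ≤ N) (hq : ∀ k, A.a k 1 - q * A.a k 0 ≠ 0) :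
    (1 : ℚ[X][X]).natDegree < (C (C (N : ℚ)) *
      ∏ i, (C (C (A.a i 0 : ℚ) * X + C (A.c i : ℚ)) + C (C (be A q i : ℚ)) * X) :
      ℚ[X][X]).natDegree := by
  rw [main_degree hN hq, natDegree_one]
  exact Nat.succ_pos D

end PsiQAux

theorem eqY_degree (hN : 1 ≤ N) (hq : ∀ k, A.a k 1 - q * A.a k 0 ≠ 0) :
    (eqY A N q).natDegree = D + 1 := by
  rw [eqY, natDegree_sub_eq_left_of_natDegree_lt (PsiQAux.one_lt hN hq),
    PsiQAux.main_degree hN hq]

theorem eqY_lead (hN : 1 ≤ N) (hq : ∀ k, A.a k 1 - q * A.a k 0 ≠ 0) :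
    (eqY A N q).leadingCoeff = C ((N : ℚ) * ∏ i, (be A q i : ℚ)) := by
  rw [eqY, leadingCoeff_sub_of_degree_lt (degree_lt_degree (PsiQAux.one_lt hN hq)),
    leadingCoeff_mul, leadingCoeff_C, leadingCoeff_prod,
    Finset.prod_congr rfl fun i _ => PsiQAux.fac_lead hq i, map_mul, map_prod]

variable {A N q}

theorem pl_ev {k : Fin (D + 1)} (P : Pl A N q k) (G : ℚ[X][X]) :
    P.φ (ev A N q G) = eval (P.φ (A.coord N 1)) (G.map psi) := by
  have h : P.φ.comp (ev A N q) = (evalRingHom (P.φ (A.coord N 1))).comp (mapRingHom psi) := by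
    refine Polynomial.ringHom_ext' (Polynomial.ringHom_ext' (Subsingleton.elim _ _) ?_) ?_
    · change P.φ (ev A N q (C X)) = eval (P.φ (A.coord N 1)) (Polynomial.map psi (C X))
      rw [PsiQAux.ev_C_X, P.hl, map_C, eval_C, psi, coe_eval₂RingHom, eval₂_X]
    · change P.φ (ev A N q X) = eval (P.φ (A.coord N 1)) (Polynomial.map psi X)
      rw [PsiQAux.ev_X, map_X, eval_X]
  exact RingHom.congr_fun h G

end

end P4a177q
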