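import Pool.Agent.Lib.P4a177q.InjQ
import Pool.Agent.Lib.P4a177q.NrmQ

/-!
# MODULE P4a177q.RegQ: functions without poles are constant; the product formula

PROOFS. `regular`: `(P 0).φ g` has a value `≤ 1`, so it is a power series (`LaurentSeries.val_le_one_iff_eq_coe`); let `t` be its constant coefficient. `g - t` (`t` as a
constant, `(P k).φ (algebraMap ℚ _ t) = HahnSeries.C t`) has all values `≤ 1` and the value `< 1` at `P 0`. Its norm `psi R` (`norm_mem`) has the value `< 1`; `vls_psi` gives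
`R = 0`, so `(P k).φ (g - t) = 0` for some `k` and `g = t` by `pl_inj`.
`sum_po`: `psi R = ∏_k (P k).φ w`, `psi R' = ∏_k (P k).φ w⁻¹`, `psi (R * R') = 1 = psi 1`, so `R * R' = 1` (`psi_injective`), `R` has degree `0` and is `≠ 0`:
`vls (∏_k (P k).φ w) = 1` by `vls_psi`. `vls ((P k).φ w) = exp (po (P k) w)` (`P4a177x.UniXAux.v_eq`), so `exp (∑ po) = 1`.
-/

set_option autoImplicit false

namespace P4a177q

open P4a177h P4a177s P4a177x Function Polynomial

variable {D : ℕ} (A : Arr 2 (D + 1)) {N : ℕ} (hN : 1 ≤ N) {q : ℤ}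
  (hq : ∀ k, A.a k 1 - q * A.a k 0 ≠ 0)

namespace RegQAux

open WithZero

theorem phi_rat {D : ℕ} {A : Arr 2 (D + 1)} {N : ℕ} {q : ℤ} {k : Fin (D + 1)} (P : Pl A N q k)
    (t : ℚ) : P.φ (algebraMap ℚ (A.CoordRing N) t) = HahnSeries.C t := by
  have h : (P.φ.comp (algebraMap ℚ (A.CoordRing N))) = (HahnSeries.C : ℚ →+* LaurentSeries ℚ) :=
    RingHom.ext_rat _ _
  exact RingHom.congr_fun h t

theorem coe_C (t : ℚ) : ((PowerSeries.C t : PowerSeries ℚ) : LaurentSeries ℚ) = HahnSeries.C t := by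
  have h : (((algebraMap (PowerSeries ℚ) (LaurentSeries ℚ)).comp (PowerSeries.C : ℚ →+* PowerSeries ℚ)))
      = (HahnSeries.C : ℚ →+* LaurentSeries ℚ) := RingHom.ext_rat _ _
  exact RingHom.congr_fun h t

theorem vls_coe_lt (F : PowerSeries ℚ) (h : PowerSeries.constantCoeff F = 0) :
    vls ℚ (F : LaurentSeries ℚ) < 1 := by
  obtain ⟨G, rfl⟩ := PowerSeries.X_dvd_iff.mpr h
  have e : ((PowerSeries.X * G : PowerSeries ℚ) : LaurentSeries ℚ) =
      HahnSeries.single (1 : ℤ) 1 * (G : LaurentSeries ℚ) := by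
    rw [PowerSeries.coe_mul, PowerSeries.coe_X]
  rw [e, map_mul, UniXAux.vls_z]
  calc exp (-1 : ℤ) * vls ℚ (G : LaurentSeries ℚ) ≤ exp (-1 : ℤ) * 1 :=
        mul_le_mul_right (UniXAux.vls_coe_le G) _
    _ = exp (-1 : ℤ) := mul_one _
    _ < exp (0 : ℤ) := exp_lt_exp.mpr (by norm_num)
    _ = 1 := exp_zero

theorem prod_lt {ι : Type*} [DecidableEq ι] (s : Finset ι) (f : ι → WithZero (Multiplicative ℤ))
    (h : ∀ i ∈ s, f i ≤ 1) {j : ι} (hj : j ∈ s) (hlt : f j < 1) : ∏ i ∈ s, f i < 1 := by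
  rw [← Finset.mul_prod_erase s f hj]
  have h2 : ∏ i ∈ s.erase j, f i ≤ 1 :=
    Finset.prod_le_one' fun i hi => h i (Finset.mem_of_mem_erase hi)
  calc f j * ∏ i ∈ s.erase j, f i ≤ f j * 1 := mul_le_mul_right h2 _
    _ = f j := mul_one _
    _ < 1 := hlt

end RegQAux

open RegQAux

include hN hq

theorem regular (P : ∀ k, Pl A N q k) (g : A.CoordRing N) (hg : ∀ k, vls ℚ ((P k).φ g) ≤ 1) :
    ∃ t : ℚ, g = algebraMap ℚ (A.CoordRing N) t := by
  obtain ⟨F, hF⟩ := (LaurentSeries.val_le_one_iff_eq_coe ℚ ((P 0).φ g)).mp (hg 0)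
  refine ⟨PowerSeries.constantCoeff F, ?_⟩
  set t := PowerSeries.constantCoeff F with ht
  set g' := g - algebraMap ℚ (A.CoordRing N) t with hg'
  have hle : ∀ k, vls ℚ ((P k).φ g') ≤ 1 := by
    intro k
    rw [hg', map_sub, phi_rat, ← coe_C]
    exact (Valuation.map_sub _ _ _).trans (max_le (hg k) (UniXAux.vls_coe_le _))
  have hlt : vls ℚ ((P 0).φ g') < 1 := by
    have e : (P 0).φ g' = ((F - PowerSeries.C t : PowerSeries ℚ) : LaurentSeries ℚ) := by
      rw [hg', map_sub, phi_rat, ← coe_C, ← hF, PowerSeries.coe_sub]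
    rw [e]
    apply vls_coe_lt
    rw [map_sub, PowerSeries.constantCoeff_C, ht, sub_self]
  obtain ⟨R, hR⟩ := norm_mem A hN hq P g'
  have hR0 : R = 0 := by
    by_contra hne
    have h1 : vls ℚ (∏ k, (P k).φ g') < 1 := by
      rw [map_prod]
      exact prod_lt _ _ (fun k _ => hle k) (Finset.mem_univ 0) hlt
    rw [hR, vls_psi R hne] at h1
    have h2 : (1 : WithZero (Multiplicative ℤ)) ≤ WithZero.exp (R.natDegree : ℤ) := by
      rw [← WithZero.exp_zero]
      exact WithZero.exp_le_exp.mpr (by positivity)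
    exact absurd h1 (not_lt.mpr h2)
  rw [hR0, map_zero, Finset.prod_eq_zero_iff] at hR
  obtain ⟨k, -, hk⟩ := hR
  have h3 : g' = 0 := pl_inj A hN hq (P k) (by rw [hk, map_zero])
  exact sub_eq_zero.mp h3

theorem sum_po (P : ∀ k, Pl A N q k) (w : (A.CoordRing N)ˣ) : ∑ k, po (P k) w = 0 := by
  obtain ⟨R, hR⟩ := norm_mem A hN hq P (w : A.CoordRing N)
  obtain ⟨R', hR'⟩ := norm_mem A hN hq P ((w⁻¹ : (A.CoordRing N)ˣ) : A.CoordRing N)
  have h1 : psi (R * R') = psi 1 := by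
    rw [map_mul, map_one, ← hR, ← hR', ← Finset.prod_mul_distrib]
    refine Finset.prod_eq_one fun k _ => ?_
    rw [← map_mul, Units.mul_inv, map_one]
  have h2 : R * R' = 1 := psi_injective h1
  have hu : IsUnit R := IsUnit.of_mul_eq_one _ h2
  have hd : R.natDegree = 0 := natDegree_eq_zero_of_isUnit hu
  have h3 : vls ℚ (∏ k, (P k).φ (w : A.CoordRing N)) = WithZero.exp (0 : ℤ) := by
    rw [hR, vls_psi R hu.ne_zero, hd]
    rfl
  have h4 : vls ℚ (∏ k, (P k).φ (w : A.CoordRing N)) = WithZero.exp (∑ k, po (P k) w) := by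
    rw [map_prod]
    have h5 : ∀ s : Finset (Fin (D + 1)), ∏ k ∈ s, vls ℚ ((P k).φ (w : A.CoordRing N)) =
        WithZero.exp (∑ k ∈ s, po (P k) w) := by
      intro s
      induction s using Finset.induction_on with
      | empty => rw [Finset.prod_empty, Finset.sum_empty, WithZero.exp_zero]
      | insert a s ha ih =>
        rw [Finset.prod_insert ha, Finset.sum_insert ha, ih, WithZero.exp_add, UniXAux.v_eq]
        rfl
    exact h5 _
  rw [h4] at h3
  exact WithZero.exp_injective h3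

end P4a177q
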