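import Pool.Agent.Lib.P4a177q.HenQ
import Pool.Agent.Lib.P4a177q.RegQ
import Pool.Agent.Lib.P4a177q.LapQ

/-!
# MODULE P4a177q.UniQ: the units of the coordinate ring

PROOF. (Model: `Lib/P4a177x/UniX.lean`, `unit_pow`.) `q` from `exists_q`, places `P k` from `exists_pl`. `po (P k) (lu k) = - deg A k`,
`po (P k) (lu i) = 1` if `dt A i k ≠ 0`, `= 0` if `i ≠ k`, `dt A i k = 0` (`Pl.hk`, `Pl.hi`, `Pl.hp`, `UniXAux.vls_mul_unit`, `UniXAux.lg_eq`). `v k = - po (P k) w`,
`∑ v = 0` by `sum_po`; `κ` from `lap_solve` with the relation `fun i k => dt A i k = 0` (`dt_equiv`, `deg_pos`; `sd` is `deg` by definition). Then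
`w' = w ^ (D + 1) ! * (∏ lu k ^ κ k)⁻¹` has `po (P k) w' = 0` for all `k`, so it is a constant by `regular` (`≠ 0`, it is a unit: as in `UniX`).
-/

set_option autoImplicit false

namespace P4a177q

open P4a177h P4a177s P4a177x Function

namespace UniQAux

open UniXAux WithZero

variable {D : ℕ} {A : Arr 2 (D + 1)} {N : ℕ} {q : ℤ} {k : Fin (D + 1)}

theorem une (P : Pl A N q k) (i : Fin (D + 1)) : PowerSeries.constantCoeff (P.U i) ≠ 0 := by
  rw [P.hu i]
  exact (P.u i).ne_zero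

theorem po_self (P : Pl A N q k) : po P (lu A N k) = -(deg A k : ℤ) :=
  lg_eq (by
    rw [P.hk]
    exact vls_mul_unit _ _ (une P k))

theorem po_ne (P : Pl A N q k) {i : Fin (D + 1)} (hi : dt A i k ≠ 0) : po P (lu A N i) = 1 :=
  lg_eq (by
    rw [P.hi i hi]
    have h := vls_mul_unit (-1 : ℤ) (P.U i) (une P i)
    rw [neg_neg] at h
    exact h)

theorem po_par (P : Pl A N q k) {i : Fin (D + 1)} (hik : i ≠ k) (hi : dt A i k = 0) :
    po P (lu A N i) = 0 :=
  lg_eq (by
    rw [P.hp i hik hi, vls_coe_unit _ (une P i), exp_zero])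

/-- the order of the product of the units at the place `k` -/
theorem sum_lu (P : Pl A N q k) (κ : Fin (D + 1) → ℤ) :
    ∑ i, κ i * po P (lu A N i) = -((deg A k : ℤ) * κ k -
      ∑ i ∈ Finset.univ.filter (fun i => ¬ dt A i k = 0), κ i) := by
  have h1 : ∀ i, κ i * po P (lu A N i) =
      (if ¬ dt A i k = 0 then κ i else 0) - (if i = k then (deg A k : ℤ) * κ k else 0) := by
    intro i
    by_cases hik : i = k
    · subst hik
      rw [po_self, if_neg (not_not.mpr (dt_self A i)), if_pos rfl]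
      ring
    · by_cases hi : dt A i k = 0
      · rw [po_par P hik hi, if_neg (not_not.mpr hi), if_neg hik]
        ring
      · rw [po_ne P hi, if_pos hi, if_neg hik]
        ring
  rw [Finset.sum_congr rfl fun i _ => h1 i, Finset.sum_sub_distrib, Finset.sum_ite_eq',
    Finset.sum_filter]
  simp

end UniQAux

open UniXAux UniQAux WithZero in
theorem unit_pow {D : ℕ} (A : Arr 2 (D + 1)) {N : ℕ} (hN : 1 ≤ N) (w : (A.CoordRing N)ˣ) :
    ∃ (t : ℚˣ) (κ : Fin (D + 1) → ℤ), w ^ (D + 1).factorial =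
      P4a177w.cs (A.CoordRing N) t * ∏ k, lu A N k ^ κ k := by
  obtain ⟨q, hq⟩ := exists_q A
  let P : ∀ k, Pl A N q k := fun k => (exists_pl A hN hq k).some
  let v : Fin (D + 1) → ℤ := fun k => -po (P k) w
  have hv : ∑ k, v k = 0 := by
    show ∑ k, -po (P k) w = 0
    rw [Finset.sum_neg_distrib, sum_po A hN hq P w, neg_zero]
  obtain ⟨κ, hκ⟩ := lap_solve (fun i k => dt A i k = 0) (dt_equiv A)
    (fun k => deg_pos A k) v hv
  obtain ⟨w', hw'⟩ : ∃ w' : (A.CoordRing N)ˣ,
    w' = w ^ (D + 1).factorial * (∏ k, lu A N k ^ κ k)⁻¹ := ⟨_, rfl⟩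
  have hww : w ^ (D + 1).factorial = w' * ∏ k, lu A N k ^ κ k := by
    rw [hw', inv_mul_cancel_right]
  have hlg : ∀ j, Multiplicative.toAdd (lg (P j).φ w') = 0 := by
    intro j
    have s1 := sum_lu (P j) κ
    have s2 : (deg A j : ℤ) * κ j -
        ∑ i ∈ Finset.univ.filter (fun i => ¬ dt A i j = 0), κ i =
          ((D + 1).factorial : ℤ) * v j := hκ j
    rw [s2] at s1
    rw [hw', lg_mul, lg_inv, lg_pow, lg_prod]
    have s3 : ∑ k, κ k * Multiplicative.toAdd (lg (P j).φ (lu A N k)) =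
        -(((D + 1).factorial : ℤ) * v j) := s1
    have s4 : Multiplicative.toAdd (lg (P j).φ w) = -(v j) := (neg_neg _).symm
    rw [s3, s4]
    ring
  have hne : ∀ (w : (A.CoordRing N)ˣ) (t : ℚ),
      (w : A.CoordRing N) = algebraMap ℚ (A.CoordRing N) t → t ≠ 0 := by
    rintro w t hwt rfl
    have h1 := v_eq (P 0).φ w
    rw [hwt, map_zero, map_zero, map_zero] at h1
    exact exp_ne_zero h1.symm
  obtain ⟨t, ht⟩ := regular A hN hq P (w' : A.CoordRing N)
    (fun i => by rw [v_eq, hlg i, exp_zero])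
  refine ⟨Units.mk0 t (hne w' t ht), κ, ?_⟩
  have h2 : w' = P4a177w.cs (A.CoordRing N) (Units.mk0 t (hne w' t ht)) := by
    refine Units.ext ?_
    rw [ht]
    rfl
  rw [hww, ← h2]

end P4a177q
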